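import Mathlib

/-!
# Layer LG (MP_0f6f3f_an): the adjoint representation of a Lie group

`G`: a smooth real Lie group modelled on `E`. `cj g`: conjugation. `Ad E g`: its derivative at `1`. `contMDiff_Ad`: `Ad` is smooth. `VF E v`: the left invariant vector field of `v`. `AdL_lie`: `Ad g` is an automorphism of the Lie algebra
(Mathlib's `GroupLieAlgebra`).
-/

set_option autoImplicit false
set_option linter.unusedSectionVars false

open scoped Manifold ContDiff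
open Set Filter Topology VectorField

namespace Pool.Agent.Helper66.LG

variable {E : Type} [NormedAddCommGroup E] [NormedSpace ℝ E]
  {G : Type} [TopologicalSpace G] [ChartedSpace E G] [Group G]

instance instLE : ENat.LEInfty (minSmoothness ℝ 3) :=
  ⟨by rw [minSmoothness_of_isRCLikeNormedField]; exact ENat.LEInfty.out⟩

/-- Conjugation. -/
def cj (g : G) : G → G := fun x => g * x * g⁻¹

theorem cj_one (g : G) : cj g (1 : G) = 1 := by simp [cj]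

variable [LieGroup 𝓘(ℝ, E) ∞ G]

variable (E) in
theorem contMDiff_cj2 : ContMDiff (𝓘(ℝ, E).prod 𝓘(ℝ, E)) 𝓘(ℝ, E) ∞ (fun p : G × G => cj p.1 p.2) := by
  have h1 : ContMDiff (𝓘(ℝ, E).prod 𝓘(ℝ, E)) 𝓘(ℝ, E) ∞ (fun p : G × G => p.1 * p.2) := contMDiff_mul 𝓘(ℝ, E) ∞
  exact h1.mul (contMDiff_fst.inv)

variable (E) in
theorem contMDiff_cj (g : G) : ContMDiff 𝓘(ℝ, E) 𝓘(ℝ, E) ∞ (cj g) :=
  (contMDiff_cj2 (G := G) E).comp (contMDiff_const.prodMk contMDiff_id)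

variable (E) in
/-- The adjoint representation. -/
noncomputable def Ad (g : G) : E →L[ℝ] E := mfderiv 𝓘(ℝ, E) 𝓘(ℝ, E) (cj g) (1 : G)

theorem hasMFDerivAt_congr_point {M M' : Type} [TopologicalSpace M] [ChartedSpace E M] [TopologicalSpace M'] [ChartedSpace E M'] {f : M → M'} {x y : M}
    (h : x = y) {A : E →L[ℝ] E} (hA : HasMFDerivAt 𝓘(ℝ, E) 𝓘(ℝ, E) f x A) : HasMFDerivAt 𝓘(ℝ, E) 𝓘(ℝ, E) f y A := by
  subst h
  exact hA

variable (E) in
theorem hasMFDerivAt_cj (g : G) : HasMFDerivAt 𝓘(ℝ, E) 𝓘(ℝ, E) (cj g) (1 : G) (Ad E g : E →L[ℝ] E) :=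
  ((contMDiff_cj E g).mdifferentiable (by simp) 1).hasMFDerivAt

theorem Ad_one : Ad E (1 : G) = ContinuousLinearMap.id ℝ E := by
  have h : cj (1 : G) = id := by
    funext x
    simp [cj]
  unfold Ad
  rw [h]
  exact mfderiv_id

theorem Ad_mul (g h : G) : Ad E (g * h) = (Ad E g).comp (Ad E h) := by
  have e : cj (g * h) = cj g ∘ cj h := by
    funext x
    simp [cj, mul_assoc]
  have h1 : HasMFDerivAt 𝓘(ℝ, E) 𝓘(ℝ, E) (cj g) (cj h 1) (Ad E g : E →L[ℝ] E) :=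
    hasMFDerivAt_congr_point (cj_one h).symm (hasMFDerivAt_cj E g)
  have h2 := HasMFDerivAt.comp (1 : G) h1 (hasMFDerivAt_cj E h)
  rw [← e] at h2
  exact h2.mfderiv

theorem inTangent_const {N : Type} {M : Type} [TopologicalSpace M] [ChartedSpace E M] [IsManifold 𝓘(ℝ, E) 1 M]
    (p : M) (f g : N → M) (hf : ∀ x, f x = p) (hg : ∀ x, g x = p) (ϕ : N → E →L[ℝ] E) (x₀ x : N) :
    inTangentCoordinates 𝓘(ℝ, E) 𝓘(ℝ, E) f g ϕ x₀ x = ϕ x := by
  obtain rfl : f = fun _ => p := funext hf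
  obtain rfl : g = fun _ => p := funext hg
  rw [inTangentCoordinates_eq]
  · ext v
    simp only [ContinuousLinearMap.comp_apply]
    rw [(tangentBundleCore 𝓘(ℝ, E) M).coordChange_self, (tangentBundleCore 𝓘(ℝ, E) M).coordChange_self]
    · simp
    · simp
  · exact mem_chart_source E p
  · exact mem_chart_source E p

variable (E) in
theorem contMDiff_Ad : ContMDiff 𝓘(ℝ, E) 𝓘(ℝ, E →L[ℝ] E) ∞ (Ad E : G → E →L[ℝ] E) := by
  intro g₀
  have h1 := ContMDiffAt.mfderiv (I := 𝓘(ℝ, E)) (I' := 𝓘(ℝ, E)) (J := 𝓘(ℝ, E)) (n := ∞) (m := ∞) (x₀ := g₀)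
    (fun g : G => cj g) (fun _ : G => (1 : G)) ((contMDiff_cj2 (G := G) E).contMDiffAt) contMDiffAt_const (by simp)
  refine h1.congr_of_eventuallyEq (Eventually.of_forall fun g => ?_)
  exact (inTangent_const (1 : G) _ _ (fun _ => rfl) (fun x => cj_one x) (Ad E) g₀ g).symm

variable (E) in
/-- The left invariant vector field of `v`. -/
noncomputable def VF (v : E) (x : G) : E := mulInvariantVectorField (I := 𝓘(ℝ, E)) (G := G) v x

theorem hasMFDerivAt_mul (x y : G) : HasMFDerivAt 𝓘(ℝ, E) 𝓘(ℝ, E) (fun z : G => x * z) y (mfderiv 𝓘(ℝ, E) 𝓘(ℝ, E) (fun z : G => x * z) y) :=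
  ((contMDiff_mul_left (I := 𝓘(ℝ, E)) (n := ∞) (a := x)).mdifferentiable (by simp) y).hasMFDerivAt

theorem VF_one (v : E) : VF E v (1 : G) = v := by
  unfold VF mulInvariantVectorField
  have h : (fun x : G => 1 * x) = id := by
    funext x
    simp
  rw [h]
  exact congrArg (fun A : E →L[ℝ] E => A v) mfderiv_id

/-- Left invariance. -/
theorem mfderiv_mul_VF (g x : G) (v : E) : (mfderiv 𝓘(ℝ, E) 𝓘(ℝ, E) (fun z : G => g * z) x : E →L[ℝ] E) (VF E v x) = VF E v (g * x) := by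
  have e : (fun z : G => g * x * z) = (fun z : G => g * z) ∘ fun z : G => x * z := by
    funext z
    simp [mul_assoc]
  have h2 : HasMFDerivAt 𝓘(ℝ, E) 𝓘(ℝ, E) (fun z : G => g * z) (x * 1) (mfderiv 𝓘(ℝ, E) 𝓘(ℝ, E) (fun z : G => g * z) x : E →L[ℝ] E) :=
    hasMFDerivAt_congr_point (mul_one x).symm (hasMFDerivAt_mul g x)
  have h3 := HasMFDerivAt.comp (1 : G) h2 (hasMFDerivAt_mul x 1)
  rw [← e] at h3
  exact (congrArg (fun A : E →L[ℝ] E => A v) h3.mfderiv).symm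

theorem mfderiv_cj_VF (g x : G) (v : E) : (mfderiv 𝓘(ℝ, E) 𝓘(ℝ, E) (cj g) x : E →L[ℝ] E) (VF E v x) = VF E (Ad E g v) (cj g x) := by
  have e : (cj g : G → G) ∘ (fun z : G => x * z) = (fun z : G => cj g x * z) ∘ cj g := by
    funext z
    simp [cj, mul_assoc]
  have h1 : HasMFDerivAt 𝓘(ℝ, E) 𝓘(ℝ, E) (cj g) x (mfderiv 𝓘(ℝ, E) 𝓘(ℝ, E) (cj g) x) := ((contMDiff_cj E g).mdifferentiable (by simp) x).hasMFDerivAt
  have h2 : HasMFDerivAt 𝓘(ℝ, E) 𝓘(ℝ, E) (cj g) (x * 1) (mfderiv 𝓘(ℝ, E) 𝓘(ℝ, E) (cj g) x : E →L[ℝ] E) :=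
    hasMFDerivAt_congr_point (mul_one x).symm h1
  have h3 := HasMFDerivAt.comp (1 : G) h2 (hasMFDerivAt_mul x 1)
  have h4 : HasMFDerivAt 𝓘(ℝ, E) 𝓘(ℝ, E) (fun z : G => cj g x * z) (cj g 1) (mfderiv 𝓘(ℝ, E) 𝓘(ℝ, E) (fun z : G => cj g x * z) (1 : G) : E →L[ℝ] E) :=
    hasMFDerivAt_congr_point (cj_one g).symm (hasMFDerivAt_mul _ 1)
  have h5 := HasMFDerivAt.comp (1 : G) h4 (hasMFDerivAt_cj E g)
  rw [← e] at h5
  have h6 := hasMFDerivAt_unique h3 h5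
  exact congrArg (fun A : E →L[ℝ] E => A v) h6

theorem inverse_mfderiv_cj (g x : G) : (mfderiv 𝓘(ℝ, E) 𝓘(ℝ, E) (cj g) x).inverse = mfderiv 𝓘(ℝ, E) 𝓘(ℝ, E) (cj g⁻¹) (cj g x) := by
  have M : MDifferentiable 𝓘(ℝ, E) 𝓘(ℝ, E) (cj g : G → G) := (contMDiff_cj E g).mdifferentiable (by simp)
  have M' : MDifferentiable 𝓘(ℝ, E) 𝓘(ℝ, E) (cj g⁻¹ : G → G) := (contMDiff_cj E g⁻¹).mdifferentiable (by simp)
  have A : mfderiv 𝓘(ℝ, E) 𝓘(ℝ, E) (cj g⁻¹ ∘ cj g) x = ContinuousLinearMap.id ℝ _ := by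
    have : (cj g⁻¹ ∘ cj g : G → G) = id := by
      funext z
      simp [cj, mul_assoc]
    rw [this]
    exact mfderiv_id
  rw [mfderiv_comp (I' := 𝓘(ℝ, E)) _ (M' _) (M _)] at A
  have A' : mfderiv 𝓘(ℝ, E) 𝓘(ℝ, E) (cj g ∘ cj g⁻¹) (cj g x) = ContinuousLinearMap.id ℝ _ := by
    have : (cj g ∘ cj g⁻¹ : G → G) = id := by
      funext z
      simp [cj, mul_assoc]
    rw [this]
    exact mfderiv_id
  have e : cj g⁻¹ (cj g x) = x := by simp [cj, mul_assoc]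
  rw [mfderiv_comp (I' := 𝓘(ℝ, E)) _ (M _) (M' _), e] at A'
  exact ContinuousLinearMap.inverse_eq A' A

theorem mpullback_cj_VF (g : G) (v : E) : mpullback 𝓘(ℝ, E) 𝓘(ℝ, E) (cj g : G → G) (mulInvariantVectorField (I := 𝓘(ℝ, E)) (G := G) v) =
    mulInvariantVectorField (I := 𝓘(ℝ, E)) (G := G) (Ad E g⁻¹ v) := by
  funext x
  have e : cj g⁻¹ (cj g x) = x := by simp [cj, mul_assoc]
  have h := mfderiv_cj_VF (E := E) g⁻¹ (cj g x) v
  rw [e] at h
  rw [mpullback_apply, inverse_mfderiv_cj]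
  exact h

variable [CompleteSpace E]

instance instLG3 : LieGroup 𝓘(ℝ, E) (minSmoothness ℝ 3) G := inferInstance

variable (E) in
/-- `Ad g` as a linear map of the Lie algebra. -/
noncomputable def AdL (g : G) : GroupLieAlgebra 𝓘(ℝ, E) G →ₗ[ℝ] GroupLieAlgebra 𝓘(ℝ, E) G := (Ad E g : E →L[ℝ] E).toLinearMap

theorem mpb (g : G) (v : GroupLieAlgebra 𝓘(ℝ, E) G) : mpullback 𝓘(ℝ, E) 𝓘(ℝ, E) (cj g⁻¹ : G → G) (mulInvariantVectorField v) =
    mulInvariantVectorField (AdL E g v) := by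
  have h := mpullback_cj_VF (E := E) g⁻¹ v
  rw [inv_inv] at h
  exact h

/-- `Ad g` is an automorphism of the Lie algebra. -/
theorem AdL_lie (g : G) (v w : GroupLieAlgebra 𝓘(ℝ, E) G) : AdL E g ⁅v, w⁆ = ⁅AdL E g v, AdL E g w⁆ := by
  have h1 : mpullback 𝓘(ℝ, E) 𝓘(ℝ, E) (cj g⁻¹ : G → G) (mlieBracket 𝓘(ℝ, E) (mulInvariantVectorField v) (mulInvariantVectorField w)) 1 =
      mlieBracket 𝓘(ℝ, E) (mpullback 𝓘(ℝ, E) 𝓘(ℝ, E) (cj g⁻¹ : G → G) (mulInvariantVectorField v))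
        (mpullback 𝓘(ℝ, E) 𝓘(ℝ, E) (cj g⁻¹ : G → G) (mulInvariantVectorField w)) 1 := by
    refine mpullback_mlieBracket (n := minSmoothness ℝ 3) ?_ ?_ ?_ ?_
    · exact mdifferentiableAt_mulInvariantVectorField _
    · exact mdifferentiableAt_mulInvariantVectorField _
    · exact (contMDiff_cj E g⁻¹).contMDiffAt.of_le instLE.out
    · exact minSmoothness_monotone (by norm_cast)
  rw [mpb, mpb, ← mulInvariantVector_mlieBracket, mpb] at h1
  have h2 := VF_one (E := E) (G := G) (AdL E g ⁅v, w⁆)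
  exact h2.symm.trans h1

end Pool.Agent.Helper66.LG
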