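import Pool.Agent.Helper66.LG.Ker
import Pool.Agent.Helper35.TZ.Conn

/-!
# Layer LG (MP_0f6f3f_an): the adjoint representation as matrices

`rp b`: `Ad` as a homomorphism `G → GL(N, ℝ)`, with values in `autG b`. `rp_injective`, `dAd_injective` when the centre is trivial.
-/

set_option autoImplicit false
set_option linter.unusedSectionVars false

open scoped Manifold ContDiff
open Set Filter Topology Matrix
open Pool.Agent.Helper96.SA Pool.Agent.Helper96.TO
open Pool.Agent.Helper35.TZ (autC component_le)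

namespace Pool.Agent.Helper66.LG

variable {E : Type} [NormedAddCommGroup E] [NormedSpace ℝ E] [CompleteSpace E]
  {G : Type} [TopologicalSpace G] [ChartedSpace E G] [Group G]
variable [LieGroup 𝓘(ℝ, E) ∞ G]
  {N : ℕ}

/-- `Ad` as matrices. -/
noncomputable def rpM (b : Module.Basis (Fin N) ℝ (GroupLieAlgebra 𝓘(ℝ, E) G)) : G →* Mat N where
  toFun g := LinearMap.toMatrix b b (AdL E g)
  map_one' := by
    have h : AdL E (1 : G) = LinearMap.id := by
      ext v
      have h1 : (Ad E (1 : G)) v = v := by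
        rw [Ad_one]
        rfl
      exact h1
    rw [h, LinearMap.toMatrix_id]
  map_mul' g h := by
    have h : AdL E (g * h) = AdL E g ∘ₗ AdL E h := by
      ext v
      have h1 : (Ad E (g * h)) v = Ad E g (Ad E h v) := by
        rw [Ad_mul]
        rfl
      exact h1
    rw [h, LinearMap.toMatrix_comp b b b]

noncomputable def rp (b : Module.Basis (Fin N) ℝ (GroupLieAlgebra 𝓘(ℝ, E) G)) : G →* GL (Fin N) ℝ := (rpM b).toHomUnits

theorem coe_rp (b : Module.Basis (Fin N) ℝ (GroupLieAlgebra 𝓘(ℝ, E) G)) (g : G) :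
    ((rp b g : GL (Fin N) ℝ) : Mat N) = LinearMap.toMatrix b b (AdL E g) := rfl

theorem rp_mem (b : Module.Basis (Fin N) ℝ (GroupLieAlgebra 𝓘(ℝ, E) G)) (g : G) : rp b g ∈ autG b := by
  rw [mem_autG]
  intro x y
  rw [coe_rp, toLin_toMatrix]
  exact AdL_lie g x y

theorem continuous_rpM (b : Module.Basis (Fin N) ℝ (GroupLieAlgebra 𝓘(ℝ, E) G)) : Continuous (rpM b) := by
  have hc : Continuous (Ad E : G → E →L[ℝ] E) := (contMDiff_Ad E).continuous
  refine continuous_matrix fun i j => ?_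
  have hF : FiniteDimensional ℝ E := Module.Finite.of_basis (show Module.Basis (Fin N) ℝ E from b)
  let l : E →ₗ[ℝ] ℝ := (show Module.Basis (Fin N) ℝ E from b).coord i
  have h1 : Continuous l := l.continuous_of_finiteDimensional
  have h2 : Continuous fun g : G => l (Ad E g (show E from b j)) := h1.comp (hc.clm_apply continuous_const)
  refine h2.congr fun g => ?_
  show _ = LinearMap.toMatrix b b (AdL E g) i j
  rw [LinearMap.toMatrix_apply]
  rfl

theorem continuous_rp (b : Module.Basis (Fin N) ℝ (GroupLieAlgebra 𝓘(ℝ, E) G)) : Continuous (rp b) := by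
  have : IsTopologicalGroup G := topologicalGroup_of_lieGroup 𝓘(ℝ, E) ∞
  rw [Units.continuous_iff]
  refine ⟨continuous_rpM b, ?_⟩
  refine ((continuous_rpM b).comp continuous_inv).congr fun g => ?_
  show rpM b g⁻¹ = ((rp b g)⁻¹ : GL (Fin N) ℝ)
  rw [← map_inv]
  rfl

/-- The basis of `E`. -/
abbrev bE (b : Module.Basis (Fin N) ℝ (GroupLieAlgebra 𝓘(ℝ, E) G)) : Module.Basis (Fin N) ℝ E := b

/-- The matrix of a continuous linear map of `E`. -/
noncomputable def mx (b : Module.Basis (Fin N) ℝ (GroupLieAlgebra 𝓘(ℝ, E) G)) : (E →L[ℝ] E) →ₐ[ℝ] Mat N :=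
  ((LinearMap.toMatrixAlgEquiv (bE b)).toAlgHom).comp
    (AlgHom.ofLinearMap (ContinuousLinearMap.coeLM ℝ : (E →L[ℝ] E) →ₗ[ℝ] (E →ₗ[ℝ] E)) rfl (fun _ _ => rfl))

theorem mx_rp (b : Module.Basis (Fin N) ℝ (GroupLieAlgebra 𝓘(ℝ, E) G)) (g : G) : mx b (Ad E g) = ((rp b g : GL (Fin N) ℝ) : Mat N) := rfl

theorem continuous_mx (b : Module.Basis (Fin N) ℝ (GroupLieAlgebra 𝓘(ℝ, E) G)) : Continuous (mx b) := by
  have hF : FiniteDimensional ℝ E := Module.Finite.of_basis (bE b)
  have h1 : FiniteDimensional ℝ (E →L[ℝ] E) := inferInstance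
  exact (mx b).toLinearMap.continuous_of_finiteDimensional

open scoped Matrix.Norms.Operator in
theorem mx_exp (b : Module.Basis (Fin N) ℝ (GroupLieAlgebra 𝓘(ℝ, E) G)) (A : E →L[ℝ] E) : mx b (NormedSpace.exp A) = NormedSpace.exp (mx b A) := by
  let : NormedAlgebra ℚ (E →L[ℝ] E) := NormedAlgebra.restrictScalars ℚ ℝ _
  have h := NormedSpace.map_exp (mx b) (continuous_mx b) A
  exact h

theorem mx_injective (b : Module.Basis (Fin N) ℝ (GroupLieAlgebra 𝓘(ℝ, E) G)) : Function.Injective (mx b) := by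
  intro A B h
  have h1 : (A : E →ₗ[ℝ] E) = (B : E →ₗ[ℝ] E) := (LinearMap.toMatrixAlgEquiv (bE b)).injective h
  exact ContinuousLinearMap.coe_injective h1

/-- `exp(t D_v)` is the matrix of `Ad` of the one parameter group. -/
theorem rp_og [T2Space G] (b : Module.Basis (Fin N) ℝ (GroupLieAlgebra 𝓘(ℝ, E) G)) (v : E) (t : ℝ) :
    ((rp b (og G v t) : GL (Fin N) ℝ) : Mat N) = NormedSpace.exp (t • mx b (dAd E G v)) := by
  rw [← mx_rp, Ad_og, mx_exp, map_smul]

theorem dAd_mem_lie [T2Space G] (b : Module.Basis (Fin N) ℝ (GroupLieAlgebra 𝓘(ℝ, E) G)) (v : E) : mx b (dAd E G v) ∈ lie (autG b) :=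
  fun t => ⟨rp b (og G v t), rp_mem b _, rp_og b v t⟩

/-- `rp` is injective when the centre is trivial. -/
theorem rp_injective [ConnectedSpace G] (hc : Subgroup.center G = ⊥) (b : Module.Basis (Fin N) ℝ (GroupLieAlgebra 𝓘(ℝ, E) G)) :
    Function.Injective (rp b) := by
  rw [injective_iff_map_eq_one]
  intro g hg
  have h1 : mx b (Ad E g) = mx b (ContinuousLinearMap.id ℝ E) := by
    rw [mx_rp, hg]
    exact (map_one (mx b)).symm
  have h2 := ker_Ad (mx_injective b h1)
  rw [hc] at h2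
  exact Subgroup.mem_bot.1 h2

theorem dAd_injective [T2Space G] [ConnectedSpace G] (hc : Subgroup.center G = ⊥) : Function.Injective (dAd E G) := by
  rw [injective_iff_map_eq_zero]
  intro v hv
  have h1 : ∀ t, og G v t = 1 := by
    intro t
    have h2 : Ad E (og G v t) = ContinuousLinearMap.id ℝ E := by
      rw [Ad_og, hv, smul_zero, NormedSpace.exp_zero]
      rfl
    have h3 := ker_Ad h2
    rw [hc] at h3
    exact Subgroup.mem_bot.1 h3
  have h2 : (og G v : ℝ → G) = fun _ => 1 := funext h1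
  have h3 := og_hasMFDerivAt (G := G) v
  rw [h2] at h3
  have h4 : HasMFDerivAt 𝓘(ℝ, ℝ) 𝓘(ℝ, E) (fun _ : ℝ => (1 : G)) 0 (0 : ℝ →L[ℝ] E) := hasMFDerivAt_const _ _
  have h5 : ((1 : ℝ →L[ℝ] ℝ).smulRight v : ℝ →L[ℝ] E) = 0 := hasMFDerivAt_unique h3 h4
  have h6 := congrArg (fun A : ℝ →L[ℝ] E => A 1) h5
  simpa using h6

end Pool.Agent.Helper66.LG
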