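import Pool.Agent.Helper66.LG.One

/-!
# Layer LG (MP_0f6f3f_an): the derivative of the adjoint representation

`dAd E G`: the derivative of `Ad` at `1`. `Ad_og`: `Ad (og v t) = exp (t dAd v)`.
-/

set_option autoImplicit false
set_option linter.unusedSectionVars false

open scoped Manifold ContDiff
open Set Filter Topology VectorField

namespace Pool.Agent.Helper66.LG

variable {E : Type} [NormedAddCommGroup E] [NormedSpace ℝ E] [CompleteSpace E]
  {G : Type} [TopologicalSpace G] [ChartedSpace E G] [Group G]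
variable [LieGroup 𝓘(ℝ, E) ∞ G] [T2Space G]

variable (E G) in
/-- The derivative of `Ad` at `1`. -/
noncomputable def dAd : E →L[ℝ] (E →L[ℝ] E) := mfderiv 𝓘(ℝ, E) 𝓘(ℝ, E →L[ℝ] E) (Ad E : G → E →L[ℝ] E) 1

variable (G) in
theorem hasMFDerivAt_Ad : HasMFDerivAt 𝓘(ℝ, E) 𝓘(ℝ, E →L[ℝ] E) (Ad E : G → E →L[ℝ] E) 1 (dAd E G) :=
  ((contMDiff_Ad E).mdifferentiable (by simp) 1).hasMFDerivAt

theorem Ad_og_hasDerivAt_zero (v : E) : HasDerivAt (fun t => Ad E (og G v t)) (dAd E G v) 0 := by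
  have h1 : HasMFDerivAt 𝓘(ℝ, E) 𝓘(ℝ, E →L[ℝ] E) (Ad E : G → E →L[ℝ] E) (og G v 0) (dAd E G : E →L[ℝ] (E →L[ℝ] E)) := by
    rw [og_zero]
    exact hasMFDerivAt_Ad G
  have h2 := HasMFDerivAt.comp (0 : ℝ) h1 (og_hasMFDerivAt (G := G) v)
  have h3 : HasFDerivAt (fun t => Ad E (og G v t)) ((dAd E G).comp ((1 : ℝ →L[ℝ] ℝ).smulRight v : ℝ →L[ℝ] E) : ℝ →L[ℝ] (E →L[ℝ] E)) 0 :=
    hasMFDerivAt_iff_hasFDerivAt.1 h2
  have h4 := h3.hasDerivAt
  refine h4.congr_deriv ?_
  have h5 : (dAd E G) (((1 : ℝ →L[ℝ] ℝ).smulRight v : ℝ →L[ℝ] E) 1) = dAd E G v := by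
    rw [ContinuousLinearMap.smulRight_apply]
    simp
  exact h5

theorem Ad_og_hasDerivAt (v : E) (t : ℝ) : HasDerivAt (fun t => Ad E (og G v t)) ((Ad E (og G v t)) * (dAd E G v)) t := by
  have h1 : HasDerivAt (fun s => Ad E (og G v t) * Ad E (og G v (s - t))) ((Ad E (og G v t)) * (dAd E G v)) t := by
    refine HasDerivAt.const_mul (Ad E (og G v t)) ?_
    have h2 := Ad_og_hasDerivAt_zero (G := G) v
    have h3 : HasDerivAt (fun s : ℝ => s - t) 1 t := (hasDerivAt_id t).sub_const t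
    have h4 := HasDerivAt.scomp (h := fun s : ℝ => s - t) t (by rw [sub_self]; exact h2) h3
    rw [one_smul] at h4
    exact h4
  refine h1.congr_of_eventuallyEq (Eventually.of_forall fun s => ?_)
  show Ad E (og G v s) = (Ad E (og G v t)).comp (Ad E (og G v (s - t)))
  rw [← Ad_mul, ← og_add]
  congr 2
  ring

theorem Ad_og (v : E) (t : ℝ) : Ad E (og G v t) = NormedSpace.exp (t • dAd E G v) := by
  have h1 : ∀ s : ℝ, HasDerivAt (fun s => Ad E (og G v s) * NormedSpace.exp (s • (-(dAd E G v)))) 0 s := by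
    intro s
    have h2 := (Ad_og_hasDerivAt (G := G) v s).mul (hasDerivAt_exp_smul_const' (𝕂 := ℝ) (-(dAd E G v)) s)
    refine h2.congr_deriv ?_
    rw [neg_mul, mul_neg, mul_assoc, add_neg_cancel]
  have h3 : ∀ s : ℝ, Ad E (og G v s) * NormedSpace.exp (s • (-(dAd E G v))) = 1 := by
    intro s
    have h4 := is_const_of_deriv_eq_zero (fun s => (h1 s).differentiableAt) (fun s => (h1 s).deriv) s 0
    rw [h4, og_zero, Ad_one, zero_smul, NormedSpace.exp_zero, mul_one]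
    rfl
  have h5 : NormedSpace.exp (t • (-(dAd E G v))) * NormedSpace.exp (t • dAd E G v) = 1 := by
    have h6 : ∀ s : ℝ, HasDerivAt (fun s => NormedSpace.exp (s • (-(dAd E G v))) * NormedSpace.exp (s • dAd E G v)) 0 s := by
      intro s
      have h2 := (hasDerivAt_exp_smul_const (𝕂 := ℝ) (-(dAd E G v)) s).mul (hasDerivAt_exp_smul_const' (𝕂 := ℝ) (dAd E G v) s)
      refine h2.congr_deriv ?_
      rw [mul_neg, neg_mul, mul_assoc, neg_add_cancel]
    have h7 := is_const_of_deriv_eq_zero (fun s => (h6 s).differentiableAt) (fun s => (h6 s).deriv) t 0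
    rw [h7, zero_smul, zero_smul, NormedSpace.exp_zero, mul_one]
  calc Ad E (og G v t) = Ad E (og G v t) * (NormedSpace.exp (t • (-(dAd E G v))) * NormedSpace.exp (t • dAd E G v)) := by rw [h5, mul_one]
    _ = _ := by rw [← mul_assoc, h3, one_mul]

end Pool.Agent.Helper66.LG
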