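import Pool.Agent.Helper66.LG.Rank

/-!
# Layer LG (MP_0f6f3f_an): the question for abstract Lie groups from the question for the adjoint groups of Lie algebras

`Core`: for simple real Lie algebras `L`, `L'` of real rank at least two and lattices `Γ`, `Λ` of the identity components of `Aut(L)`, `Aut(L')`: if `L(Γ)` and `L(Λ)` are isomorphic then `L` and `L'` are
isomorphic. `full_of_core`: then the same holds for connected simple Lie groups with trivial centre (in the sense of Mathlib), and the conclusion is that the Lie groups are isomorphic.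
-/

set_option autoImplicit false
set_option linter.unusedSectionVars false

open scoped Manifold ContDiff
open Pool.Agent.Helper96.SA Pool.Agent.Helper96.TO Pool.Agent.Helper66.RKS
open Pool.Agent.Helper35.TZ (autC)

namespace Pool.Agent.Helper66.LG

/-- The statement for adjoint groups. -/
def Core : Prop :=
  ∀ (L L' : Type) [LieRing L] [LieAlgebra ℝ L] [LieAlgebra.IsSimple ℝ L] [LieRing L'] [LieAlgebra ℝ L'] [LieAlgebra.IsSimple ℝ L']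
    (N N' : ℕ) (b : Module.Basis (Fin N) ℝ L) (b' : Module.Basis (Fin N') ℝ L') (θ : L ≃ₗ⁅ℝ⁆ L) (θ' : L' ≃ₗ⁅ℝ⁆ L'),
    CartanBasis θ b → CartanBasis θ' b' → 2 ≤ rankL θ → 2 ≤ rankL θ' →
    ∀ (Γ : Subgroup (autC b)) (Λ : Subgroup (autC b')), Pool.Agent.Helper96.FR.Lattice Γ → Pool.Agent.Helper96.FR.Lattice Λ → IsoL Γ Λ →
      Nonempty (L ≃ₗ⁅ℝ⁆ L')

/-- **The question for abstract Lie groups.** -/
theorem full_of_core (H : Core)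
    (E₁ E₂ : Type) [NormedAddCommGroup E₁] [NormedSpace ℝ E₁] [FiniteDimensional ℝ E₁] [NormedAddCommGroup E₂] [NormedSpace ℝ E₂]
    [FiniteDimensional ℝ E₂]
    (G₁ G₂ : Type) [TopologicalSpace G₁] [ChartedSpace E₁ G₁] [Group G₁] [LieGroup 𝓘(ℝ, E₁) ∞ G₁] [T2Space G₁] [ConnectedSpace G₁]
    [TopologicalSpace G₂] [ChartedSpace E₂ G₂] [Group G₂] [LieGroup 𝓘(ℝ, E₂) ∞ G₂] [T2Space G₂] [ConnectedSpace G₂]
    (s₁ : LieAlgebra.IsSimple ℝ (GroupLieAlgebra 𝓘(ℝ, E₁) G₁)) (s₂ : LieAlgebra.IsSimple ℝ (GroupLieAlgebra 𝓘(ℝ, E₂) G₂))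
    (c₁ : Subgroup.center G₁ = ⊥) (c₂ : Subgroup.center G₂ = ⊥)
    (r₁ : RealRankGE (GroupLieAlgebra 𝓘(ℝ, E₁) G₁) 2) (r₂ : RealRankGE (GroupLieAlgebra 𝓘(ℝ, E₂) G₂) 2)
    (Γ₁ : Subgroup G₁) (Γ₂ : Subgroup G₂) (h₁ : Pool.Agent.Helper96.FR.Lattice Γ₁) (h₂ : Pool.Agent.Helper96.FR.Lattice Γ₂)
    (h : IsoL Γ₁ Γ₂) :
    ∃ e : G₁ ≃* G₂, ContMDiff 𝓘(ℝ, E₁) 𝓘(ℝ, E₂) ∞ e ∧ ContMDiff 𝓘(ℝ, E₂) 𝓘(ℝ, E₁) ∞ e.symm := by
  have f₁ : FiniteDimensional ℝ (GroupLieAlgebra 𝓘(ℝ, E₁) G₁) := (inferInstance : FiniteDimensional ℝ E₁)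
  have f₂ : FiniteDimensional ℝ (GroupLieAlgebra 𝓘(ℝ, E₂) G₂) := (inferInstance : FiniteDimensional ℝ E₂)
  have k₁ : CompleteSpace E₁ := FiniteDimensional.complete ℝ E₁
  have k₂ : CompleteSpace E₂ := FiniteDimensional.complete ℝ E₂
  obtain ⟨θ₁, t1, t2, a₁, t3, t4, t5⟩ := r₁
  obtain ⟨θ₂, u1, u2, a₂, u3, u4, u5⟩ := r₂
  obtain ⟨N₁, b₁, hb₁⟩ := exists_cartanBasis t1 t2
  obtain ⟨N₂, b₂, hb₂⟩ := exists_cartanBasis u1 u2
  exact of_core c₁ c₂ hb₁ hb₂ (fun Γ Λ hΓ hΛ hi => H _ _ _ _ b₁ b₂ θ₁ θ₂ hb₁ hb₂ (t5.trans (rankL_ge b₁ t3 t4)) (u5.trans (rankL_ge b₂ u3 u4)) Γ Λ hΓ hΛ hi)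
    h₁ h₂ h

end Pool.Agent.Helper66.LG
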