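import Pool.Agent.Helper66.LG.Sur
import Pool.Agent.Helper35.TZ.Fin2

/-!
# Layer LG (MP_0f6f3f_an): the adjoint representation is a homeomorphism onto its image

`sigmaCompact_of_connected`; `exists_ad`: `G` and `autC b` are isomorphic as topological groups.
-/

set_option autoImplicit false
set_option linter.unusedSectionVars false

open scoped Manifold ContDiff Pointwise
open Set Filter Topology Matrix
open Pool.Agent.Helper96.SA Pool.Agent.Helper96.TO
open Pool.Agent.Helper35.TZ (autC component_le)

namespace Pool.Agent.Helper66.LG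

/-- Connected locally compact groups are sigma compact. -/
theorem sigmaCompact_of_connected (G : Type) [Group G] [TopologicalSpace G] [IsTopologicalGroup G] [LocallyCompactSpace G] [ConnectedSpace G] :
    SigmaCompactSpace G := by
  obtain ⟨K, hK, hK1⟩ := exists_compact_mem_nhds (1 : G)
  let S : Set G := K ∪ K⁻¹
  have hS : IsCompact S := hK.union hK.inv
  have hSi : S⁻¹ = S := by
    show (K ∪ K⁻¹)⁻¹ = K ∪ K⁻¹
    rw [union_inv, inv_inv, union_comm]
  have hp : ∀ n : ℕ, IsCompact (S ^ n) := by
    intro n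
    induction n with
    | zero => 
      rw [pow_zero]
      exact isCompact_singleton
    | succ n ih =>
      rw [pow_succ]
      exact ih.mul hS
  let H : Subgroup G :=
    { carrier := ⋃ n : ℕ, S ^ n
      mul_mem' := by
        intro a b ha hb
        obtain ⟨m, hm⟩ := mem_iUnion.1 ha
        obtain ⟨n, hn⟩ := mem_iUnion.1 hb
        refine mem_iUnion.2 ⟨m + n, ?_⟩
        rw [pow_add]
        exact mul_mem_mul hm hn
      one_mem' := mem_iUnion.2 ⟨0, by rw [pow_zero]; exact rfl⟩
      inv_mem' := by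
        intro a ha
        obtain ⟨m, hm⟩ := mem_iUnion.1 ha
        refine mem_iUnion.2 ⟨m, ?_⟩
        have h1 : a⁻¹ ∈ (S ^ m)⁻¹ := by
          rw [Set.mem_inv, inv_inv]
          exact hm
        rwa [← inv_pow, hSi] at h1 }
  have hH : IsOpen (H : Set G) := by
    refine Subgroup.isOpen_of_mem_nhds H (g := 1) (mem_of_superset hK1 fun x hx => ?_)
    refine mem_iUnion.2 ⟨1, ?_⟩
    rw [pow_one]
    exact Or.inl hx
  have hcl : IsClopen (H : Set G) := ⟨H.isClosed_of_isOpen hH, hH⟩
  have hu : (H : Set G) = univ := hcl.eq_univ ⟨1, H.one_mem⟩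
  exact ⟨⟨fun n => S ^ n, hp, hu⟩⟩

variable {E : Type} [NormedAddCommGroup E] [NormedSpace ℝ E] [CompleteSpace E]
  {G : Type} [TopologicalSpace G] [ChartedSpace E G] [Group G]
variable [LieGroup 𝓘(ℝ, E) ∞ G]
  {N : ℕ}

/-- **The adjoint representation is an isomorphism of topological groups onto the identity component of `Aut(L)`.** -/
theorem exists_ad [T2Space G] [ConnectedSpace G] (hc : Subgroup.center G = ⊥) {θ : GroupLieAlgebra 𝓘(ℝ, E) G ≃ₗ⁅ℝ⁆ GroupLieAlgebra 𝓘(ℝ, E) G}
    {b : Module.Basis (Fin N) ℝ (GroupLieAlgebra 𝓘(ℝ, E) G)} (h : CartanBasis θ b) :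
    ∃ e : G ≃ₜ* autC b, ∀ g, ((e g : autC b) : GL (Fin N) ℝ) = rp b g := by
  have hF2 : FiniteDimensional ℝ E := Module.Finite.of_basis (bE b)
  have i0 : IsTopologicalGroup G := topologicalGroup_of_lieGroup 𝓘(ℝ, E) ∞
  have i1 : LocallyCompactSpace G := ChartedSpace.locallyCompactSpace E G
  have i2 : SigmaCompactSpace G := sigmaCompact_of_connected G
  obtain ⟨j1, j2, j3⟩ := Pool.Agent.Helper35.TZ.lcs_autC b
  let f : G →* autC b := (rp b).codRestrict (autC b) (rp_mem_autC b)
  have hf : Continuous f := (continuous_rp b).subtype_mk _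
  have hs : Function.Surjective f := by
    rintro ⟨k, hk⟩
    obtain ⟨g, hg⟩ := exists_rp hc h hk
    exact ⟨g, Subtype.ext hg⟩
  have hi : Function.Injective f := by
    intro x y hxy
    exact rp_injective hc b (congrArg Subtype.val hxy)
  have ho : IsOpenMap f := MonoidHom.isOpenMap_of_sigmaCompact f hs hf
  let e0 : G ≃* autC b := MulEquiv.ofBijective f ⟨hi, hs⟩
  refine ⟨{ e0 with
      continuous_toFun := hf
      continuous_invFun := ?_ }, fun g => rfl⟩
  refine continuous_def.2 fun U hU => ?_
  have h1 : e0.symm ⁻¹' U = f '' U := by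
    ext k
    constructor
    · intro hk
      exact ⟨e0.symm k, hk, e0.apply_symm_apply k⟩
    · rintro ⟨g, hg, rfl⟩
      have h2 : e0.symm (f g) = g := e0.symm_apply_apply g
      show e0.symm (f g) ∈ U
      rwa [h2]
  exact h1 ▸ ho U hU

end Pool.Agent.Helper66.LG
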