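import Pool.Agent.Helper66.LG.Smooth

/-!
# Layer LG (MP_0f6f3f_an): isomorphic Lie algebras give isomorphic Lie groups

`map_cartanBasis`, `autG_map`, `autC_map`: transport along an isomorphism of Lie algebras. `exists_lieIso`: connected Lie groups with trivial centres and isomorphic semisimple Lie algebras are isomorphic as Lie groups.
-/

set_option autoImplicit false
set_option linter.unusedSectionVars false

open scoped Manifold ContDiff Pointwise
open Set Filter Topology Matrix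
open Pool.Agent.Helper96.SA Pool.Agent.Helper96.TO
open Pool.Agent.Helper35.TZ (autC component_le)

namespace Pool.Agent.Helper66.LG

section Transport

variable {L L' : Type} [LieRing L] [LieAlgebra ℝ L] [LieRing L'] [LieAlgebra ℝ L'] {N : ℕ}

theorem map_cartanBasis {θ : L ≃ₗ⁅ℝ⁆ L} {b : Module.Basis (Fin N) ℝ L} (h : CartanBasis θ b) (f : L ≃ₗ⁅ℝ⁆ L') :
    CartanBasis ((f.symm.trans θ).trans f) (b.map f.toLinearEquiv) := by
  have hF : Module.Finite ℝ L := Module.Finite.of_basis b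
  have hF' : Module.Finite ℝ L' := Module.Finite.of_basis (b.map f.toLinearEquiv)
  refine ⟨fun x => ?_, fun i j => ?_⟩
  · show f (θ (f.symm (f (θ (f.symm x))))) = x
    rw [LieEquiv.symm_apply_apply, h.invol, LieEquiv.apply_symm_apply]
  · rw [← h.orth i j]
    have e1 : (b.map f.toLinearEquiv) i = f (b i) := rfl
    have e2 : ((f.symm.trans θ).trans f) ((b.map f.toLinearEquiv) j) = f (θ (b j)) := by
      show f (θ (f.symm (f (b j)))) = _
      rw [LieEquiv.symm_apply_apply]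
    rw [e1, e2, LieAlgebra.killingForm_of_equiv_apply]

theorem toLin_map (b : Module.Basis (Fin N) ℝ L) (f : L ≃ₗ⁅ℝ⁆ L') (M : Mat N) (x : L) :
    toLin (b.map f.toLinearEquiv) (b.map f.toLinearEquiv) M (f x) = f (toLin b b M x) := by
  have h : toLin (b.map f.toLinearEquiv) (b.map f.toLinearEquiv) M ∘ₗ f.toLinearEquiv.toLinearMap = f.toLinearEquiv.toLinearMap ∘ₗ toLin b b M := by
    refine b.ext fun j => ?_
    have h1 : toLin (b.map f.toLinearEquiv) (b.map f.toLinearEquiv) M ((b.map f.toLinearEquiv) j) = ∑ i, M i j • (b.map f.toLinearEquiv) i :=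
      toLin_self _ _ _ _
    have h2 : toLin b b M (b j) = ∑ i, M i j • b i := toLin_self _ _ _ _
    show toLin (b.map f.toLinearEquiv) (b.map f.toLinearEquiv) M ((b.map f.toLinearEquiv) j) = f.toLinearEquiv (toLin b b M (b j))
    rw [h1, h2, map_sum]
    refine Finset.sum_congr rfl fun i _ => ?_
    rw [map_smul]
    rfl
  exact LinearMap.congr_fun h x

theorem autG_map (b : Module.Basis (Fin N) ℝ L) (f : L ≃ₗ⁅ℝ⁆ L') : autG (b.map f.toLinearEquiv) = autG b := by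
  ext g
  rw [mem_autG, mem_autG]
  constructor
  · intro h x y
    have h1 := h (f x) (f y)
    rw [← LieEquiv.map_lie, toLin_map, toLin_map, toLin_map, ← LieEquiv.map_lie] at h1
    exact f.injective h1
  · intro h x y
    obtain ⟨x, rfl⟩ : ∃ z, f z = x := ⟨f.symm x, f.apply_symm_apply x⟩
    obtain ⟨y, rfl⟩ : ∃ z, f z = y := ⟨f.symm y, f.apply_symm_apply y⟩
    rw [← LieEquiv.map_lie, toLin_map, toLin_map, toLin_map, ← LieEquiv.map_lie, h]

theorem autC_map (b : Module.Basis (Fin N) ℝ L) (f : L ≃ₗ⁅ℝ⁆ L') : autC (b.map f.toLinearEquiv) = autC b :=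
  congrArg (fun S : Subgroup (GL (Fin N) ℝ) => (Subgroup.connectedComponentOfOne S).map S.subtype) (autG_map b f)

end Transport

variable {E₁ E₂ : Type} [NormedAddCommGroup E₁] [NormedSpace ℝ E₁] [NormedAddCommGroup E₂] [NormedSpace ℝ E₂] [CompleteSpace E₁] [CompleteSpace E₂]
  {G₁ G₂ : Type} [TopologicalSpace G₁] [ChartedSpace E₁ G₁] [Group G₁] [LieGroup 𝓘(ℝ, E₁) ∞ G₁] [T2Space G₁] [ConnectedSpace G₁]
  [TopologicalSpace G₂] [ChartedSpace E₂ G₂] [Group G₂] [LieGroup 𝓘(ℝ, E₂) ∞ G₂] [T2Space G₂] [ConnectedSpace G₂]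
  {N : ℕ}

/-- **Isomorphic Lie algebras, trivial centres: isomorphic Lie groups.** -/
theorem exists_lieIso (hc₁ : Subgroup.center G₁ = ⊥) (hc₂ : Subgroup.center G₂ = ⊥)
    {θ : GroupLieAlgebra 𝓘(ℝ, E₁) G₁ ≃ₗ⁅ℝ⁆ GroupLieAlgebra 𝓘(ℝ, E₁) G₁}
    {b : Module.Basis (Fin N) ℝ (GroupLieAlgebra 𝓘(ℝ, E₁) G₁)} (h : CartanBasis θ b)
    (f : GroupLieAlgebra 𝓘(ℝ, E₁) G₁ ≃ₗ⁅ℝ⁆ GroupLieAlgebra 𝓘(ℝ, E₂) G₂) :
    ∃ e : G₁ ≃* G₂, ContMDiff 𝓘(ℝ, E₁) 𝓘(ℝ, E₂) ∞ e ∧ ContMDiff 𝓘(ℝ, E₂) 𝓘(ℝ, E₁) ∞ e.symm := by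
  obtain ⟨e₁, he₁⟩ := exists_ad hc₁ h
  obtain ⟨e₂, he₂⟩ := exists_ad hc₂ (map_cartanBasis h f)
  have hm := autC_map b f
  let c : autC b ≃ₜ* autC (b.map f.toLinearEquiv) :=
    { toFun := fun x => ⟨x.1, hm.ge x.2⟩
      invFun := fun x => ⟨x.1, hm.le x.2⟩
      left_inv := fun x => rfl
      right_inv := fun x => rfl
      map_mul' := fun x y => rfl
      continuous_toFun := continuous_subtype_val.subtype_mk _
      continuous_invFun := continuous_subtype_val.subtype_mk _ }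
  let e : G₁ ≃ₜ* G₂ := (e₁.trans c).trans e₂.symm
  have hrel : ∀ g, rp (b.map f.toLinearEquiv) (e g) = rp b g := by
    intro g
    rw [← he₂, ← he₁]
    show ((e₂ (e₂.symm (c (e₁ g))) : autC (b.map f.toLinearEquiv)) : GL (Fin N) ℝ) = _
    rw [ContinuousMulEquiv.apply_symm_apply]
    rfl
  refine ⟨e.toMulEquiv, ?_, ?_⟩
  · exact smooth_rel hc₂ b (b.map f.toLinearEquiv) e.toMulEquiv.toMonoidHom e.continuous_toFun hrel
  · refine smooth_rel hc₁ (b.map f.toLinearEquiv) b e.toMulEquiv.symm.toMonoidHom e.continuous_invFun fun g => ?_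
    rw [← hrel]
    show rp (b.map f.toLinearEquiv) (e (e.symm g)) = _
    rw [ContinuousMulEquiv.apply_symm_apply]

end Pool.Agent.Helper66.LG
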