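import Pool.Agent.Helper66.LG.Der

/-!
# Layer LG (MP_0f6f3f_an): the kernel of the adjoint representation

`eventually_const`: maps with derivative zero are locally constant. `ker_Ad`: for connected `G` the kernel of `Ad` is contained in the centre.
-/

set_option autoImplicit false
set_option linter.unusedSectionVars false

open scoped Manifold ContDiff
open Set Filter Topology VectorField

namespace Pool.Agent.Helper66.LG

section Const

variable {E : Type} [NormedAddCommGroup E] [NormedSpace ℝ E] {M : Type} [TopologicalSpace M] [ChartedSpace E M] [IsManifold 𝓘(ℝ, E) 1 M]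

/-- A map with derivative zero is locally constant. -/
theorem eventually_const {f : M → M} (hf : ∀ x, HasMFDerivAt 𝓘(ℝ, E) 𝓘(ℝ, E) f x (0 : E →L[ℝ] E)) (x₀ : M) :
    ∀ᶠ x in 𝓝 x₀, f x = f x₀ := by
  set φ := extChartAt 𝓘(ℝ, E) x₀ with hφ
  set ψ := extChartAt 𝓘(ℝ, E) (f x₀) with hψ
  have hcf : Continuous f := continuous_iff_continuousAt.2 fun x => (hf x).continuousAt
  have hs1 : ContinuousAt φ.symm (φ x₀) := continuousAt_extChartAt_symm x₀
  have hsx : φ.symm (φ x₀) = x₀ := extChartAt_to_inv x₀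
  have hU : φ.target ∩ (fun u => f (φ.symm u)) ⁻¹' ψ.source ∈ 𝓝 (φ x₀) := by
    refine inter_mem (extChartAt_target_mem_nhds x₀) ?_
    have h1 : ContinuousAt (fun u => f (φ.symm u)) (φ x₀) := hcf.continuousAt.comp hs1
    refine h1.preimage_mem_nhds ?_
    rw [hsx]
    exact extChartAt_source_mem_nhds (f x₀)
  obtain ⟨r, hr, hB⟩ := Metric.mem_nhds_iff.1 hU
  have hd : ∀ u ∈ Metric.ball (φ x₀) r, HasFDerivAt (fun u => ψ (f (φ.symm u))) (0 : E →L[ℝ] E) u := by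
    intro u hu
    obtain ⟨hu1, hu2⟩ := hB hu
    have h1 : MDifferentiableAt 𝓘(ℝ, E) 𝓘(ℝ, E) φ.symm u := by
      have h2 := mdifferentiableWithinAt_extChartAt_symm (I := 𝓘(ℝ, E)) hu1
      rwa [show range 𝓘(ℝ, E) = univ by simp, mdifferentiableWithinAt_univ] at h2
    have h3 : MDifferentiableAt 𝓘(ℝ, E) 𝓘(ℝ, E) ψ (f (φ.symm u)) :=
      mdifferentiableAt_extChartAt (by rw [← extChartAt_source 𝓘(ℝ, E)]; exact hu2)
    have h4 := HasMFDerivAt.comp u (h3.hasMFDerivAt.comp (φ.symm u) (hf (φ.symm u))) h1.hasMFDerivAt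
    have h5 := hasMFDerivAt_iff_hasFDerivAt.1 h4
    refine h5.congr_fderiv ?_
    exact ContinuousLinearMap.ext fun w => map_zero (mfderiv 𝓘(ℝ, E) 𝓘(ℝ, E) ψ (f (φ.symm u)) : E →L[ℝ] E)
  have hc : ∀ u ∈ Metric.ball (φ x₀) r, ψ (f (φ.symm u)) = ψ (f (φ.symm (φ x₀))) := by
    intro u hu
    refine (convex_ball (φ x₀) r).is_const_of_fderivWithin_eq_zero (𝕜 := ℝ) (f := fun u => ψ (f (φ.symm u)))
      (fun z hz => (hd z hz).differentiableAt.differentiableWithinAt) (fun z hz => ?_) hu (Metric.mem_ball_self hr)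
    exact (hd z hz).hasFDerivWithinAt.fderivWithin (Metric.isOpen_ball.uniqueDiffWithinAt hz)
  have hcx : ContinuousAt φ x₀ := continuousAt_extChartAt x₀
  filter_upwards [hcx.preimage_mem_nhds (Metric.ball_mem_nhds _ hr), extChartAt_source_mem_nhds (I := 𝓘(ℝ, E)) x₀] with x hx hxs
  have h1 := hc (φ x) hx
  have h2 : φ.symm (φ x) = x := φ.left_inv hxs
  rw [h2, hsx] at h1
  refine ψ.injOn ?_ (mem_extChartAt_source (f x₀)) h1
  have h3 := (hB hx).2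
  rw [mem_preimage, h2] at h3
  exact h3

end Const

variable {E : Type} [NormedAddCommGroup E] [NormedSpace ℝ E] [CompleteSpace E]
  {G : Type} [TopologicalSpace G] [ChartedSpace E G] [Group G]
variable [LieGroup 𝓘(ℝ, E) ∞ G]

/-- `x ↦ z x z⁻¹ x⁻¹` -/
def cm (z : G) : G → G := fun x => cj z x * x⁻¹

theorem cm_one (z : G) : cm z (1 : G) = 1 := by simp [cm, cj]

variable (E) in
theorem contMDiff_cm (z : G) : ContMDiff 𝓘(ℝ, E) 𝓘(ℝ, E) ∞ (cm z) := (contMDiff_cj E z).mul (contMDiff_inv 𝓘(ℝ, E) ∞)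

/-- The derivative of a product at `(1, 1)`. -/
theorem mfderiv_mul_one (u w : E) : (mfderiv (𝓘(ℝ, E).prod 𝓘(ℝ, E)) 𝓘(ℝ, E) (fun p : G × G => p.1 * p.2) (1, 1) : E × E →L[ℝ] E) (u, w) = u + w := by
  have h1 := mfderiv_prod_eq_add_apply (v := ((u, w) : E × E)) ((contMDiff_mul 𝓘(ℝ, E) ∞ (G := G)).mdifferentiable (by simp) (1, 1))
  refine h1.trans ?_
  have e1 : (fun z : G => z * 1) = id := by
    funext z
    simp
  have e2 : (fun z : G => 1 * z) = id := by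
    funext z
    simp
  have h3 : (mfderiv 𝓘(ℝ, E) 𝓘(ℝ, E) (fun z : G => z * 1) (1 : G) : E →L[ℝ] E) u = u := by
    rw [e1]
    exact congrArg (fun A : E →L[ℝ] E => A u) mfderiv_id
  have h4 : (mfderiv 𝓘(ℝ, E) 𝓘(ℝ, E) (fun z : G => 1 * z) (1 : G) : E →L[ℝ] E) w = w := by
    rw [e2]
    exact congrArg (fun A : E →L[ℝ] E => A w) mfderiv_id
  exact congrArg₂ (fun a b : E => a + b) h3 h4

theorem hasMFDerivAt_cm_one {z : G} (hz : Ad E z = ContinuousLinearMap.id ℝ E) : HasMFDerivAt 𝓘(ℝ, E) 𝓘(ℝ, E) (cm z) 1 (0 : E →L[ℝ] E) := by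
  let A : E →L[ℝ] E := mfderiv 𝓘(ℝ, E) 𝓘(ℝ, E) (cm z) 1
  have h0 : HasMFDerivAt 𝓘(ℝ, E) 𝓘(ℝ, E) (cm z) 1 A := ((contMDiff_cm E z).mdifferentiable (by simp) 1).hasMFDerivAt
  have h1 : HasMFDerivAt 𝓘(ℝ, E) (𝓘(ℝ, E).prod 𝓘(ℝ, E)) (fun y : G => (cm z y, y)) 1 (A.prod (ContinuousLinearMap.id ℝ E)) :=
    h0.prodMk (hasMFDerivAt_id 1)
  let B : E × E →L[ℝ] E := mfderiv (𝓘(ℝ, E).prod 𝓘(ℝ, E)) 𝓘(ℝ, E) (fun p : G × G => p.1 * p.2) (1, 1)
  have h2 : HasMFDerivAt (𝓘(ℝ, E).prod 𝓘(ℝ, E)) 𝓘(ℝ, E) (fun p : G × G => p.1 * p.2) (cm z 1, 1) B := by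
    rw [cm_one]
    exact ((contMDiff_mul 𝓘(ℝ, E) ∞ (G := G)).mdifferentiable (by simp) (1, 1)).hasMFDerivAt
  have h3 : HasMFDerivAt 𝓘(ℝ, E) 𝓘(ℝ, E) (fun y : G => cm z y * y) 1 (B.comp (A.prod (ContinuousLinearMap.id ℝ E))) :=
    HasMFDerivAt.comp (f := fun y : G => (cm z y, y)) (1 : G) h2 h1
  have e : (fun y : G => cm z y * y) = cj z := by
    funext y
    simp [cm]
  rw [e] at h3
  have h4 : B.comp (A.prod (ContinuousLinearMap.id ℝ E)) = Ad E z := hasMFDerivAt_unique h3 (hasMFDerivAt_cj E z)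
  have h5 : A = 0 := by
    ext v
    have h6 : B (A v, v) = v := by
      have h7 := congrArg (fun T : E →L[ℝ] E => T v) h4
      rw [hz] at h7
      exact h7
    have h8 : A v + v = v := (mfderiv_mul_one (G := G) (A v) v).symm.trans h6
    simpa using h8
  rw [h5] at h0
  exact h0

theorem hasMFDerivAt_cm {z : G} (hz : Ad E z = ContinuousLinearMap.id ℝ E) (x : G) : HasMFDerivAt 𝓘(ℝ, E) 𝓘(ℝ, E) (cm z) x (0 : E →L[ℝ] E) := by
  have e : cm z = (fun w : G => cj z x * w * x⁻¹) ∘ cm z ∘ fun y : G => x⁻¹ * y := by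
    funext y
    simp [cm, cj, mul_assoc]
  have h1 : HasMFDerivAt 𝓘(ℝ, E) 𝓘(ℝ, E) (fun y : G => x⁻¹ * y) x (mfderiv 𝓘(ℝ, E) 𝓘(ℝ, E) (fun y : G => x⁻¹ * y) x) := hasMFDerivAt_mul _ _
  have h2 : HasMFDerivAt 𝓘(ℝ, E) 𝓘(ℝ, E) (cm z) ((fun y : G => x⁻¹ * y) x) (0 : E →L[ℝ] E) :=
    hasMFDerivAt_congr_point (by simp) (hasMFDerivAt_cm_one hz)
  have h3 := HasMFDerivAt.comp x h2 h1
  have h4 : MDifferentiable 𝓘(ℝ, E) 𝓘(ℝ, E) (fun w : G => cj z x * w * x⁻¹) :=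
    ((contMDiff_mul_right (I := 𝓘(ℝ, E)) (n := ∞) (a := x⁻¹)).comp (contMDiff_mul_left (I := 𝓘(ℝ, E)) (n := ∞) (a := cj z x))).mdifferentiable (by simp)
  have h5 := HasMFDerivAt.comp x (h4 _).hasMFDerivAt h3
  rw [← e] at h5
  refine h5.congr_mfderiv ?_
  refine ContinuousLinearMap.ext fun w => ?_
  exact map_zero (mfderiv 𝓘(ℝ, E) 𝓘(ℝ, E) (fun w : G => cj z x * w * x⁻¹) ((cm z ∘ fun y => x⁻¹ * y) x) : E →L[ℝ] E)

/-- **The kernel of `Ad` is the centre.** -/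
theorem ker_Ad [ConnectedSpace G] {z : G} (hz : Ad E z = ContinuousLinearMap.id ℝ E) : z ∈ Subgroup.center G := by
  have h1 : IsLocallyConstant (cm z : G → G) := by
    rw [IsLocallyConstant.iff_eventually_eq]
    intro x
    have : IsManifold 𝓘(ℝ, E) 1 G := IsManifold.of_le (n := ∞) (by simp)
    exact eventually_const (hasMFDerivAt_cm hz) x
  rw [Subgroup.mem_center_iff]
  intro g
  have h2 : cm z g = cm z 1 := h1.apply_eq_of_preconnectedSpace g 1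
  rw [cm_one] at h2
  have h3 : z * g * z⁻¹ * g⁻¹ = 1 := h2
  have h4 : z * g * z⁻¹ = g := mul_inv_eq_one.1 h3
  calc g * z = z * g * z⁻¹ * z := by rw [h4]
    _ = z * g := by simp

end Pool.Agent.Helper66.LG
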