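import Pool.Agent.Helper96.FR.Lat3

/-!
# Layer LG (MP_0f6f3f_an): lattices under isomorphisms of topological groups
-/

set_option autoImplicit false
set_option linter.unusedSectionVars false

open Filter Topology MeasureTheory
open scoped Pointwise ENNReal

namespace Pool.Agent.Helper66.LG



variable {G H : Type} [Group G] [TopologicalSpace G] [IsTopologicalGroup G] [Group H] [TopologicalSpace H] [IsTopologicalGroup H]

/-- The image of a lattice under an isomorphism of topological groups. -/
theorem lattice_map (e : G ≃ₜ* H) {Γ : Subgroup G} (h : Pool.Agent.Helper96.FR.Lattice Γ) : Pool.Agent.Helper96.FR.Lattice (Γ.map e.toMulEquiv.toMonoidHom) := by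
  obtain ⟨hd, ν, h0, h1, hinv⟩ := h
  refine ⟨?_, ?_⟩
  · have hI : ∀ y : (Γ.map e.toMulEquiv.toMonoidHom), e.symm y.1 ∈ Γ := by
      rintro ⟨y, x, hx, hxy⟩
      have h2 : e.symm y = x := by
        rw [← hxy]
        exact e.symm_apply_apply x
      show e.symm y ∈ Γ
      rw [h2]
      exact hx
    let f : Γ ≃ₜ (Γ.map e.toMulEquiv.toMonoidHom) :=
      { toFun := fun x => ⟨e x.1, ⟨x.1, x.2, rfl⟩⟩
        invFun := fun y => ⟨e.symm y.1, hI y⟩
        left_inv := fun x => Subtype.ext (e.symm_apply_apply x.1)
        right_inv := fun y => Subtype.ext (e.apply_symm_apply y.1)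
        continuous_toFun := (e.continuous_toFun.comp continuous_subtype_val).subtype_mk _
        continuous_invFun := (e.continuous_invFun.comp continuous_subtype_val).subtype_mk hI }
    exact f.symm.isEmbedding.discreteTopology
  · have hle : ∀ a b : G, (QuotientGroup.leftRel Γ) a b → (QuotientGroup.leftRel (Γ.map e.toMulEquiv.toMonoidHom)) (e a) (e b) := by
      intro a b hab
      rw [QuotientGroup.leftRel_apply] at hab ⊢
      exact ⟨a⁻¹ * b, hab, by
        show e (a⁻¹ * b) = _
        rw [map_mul, map_inv]⟩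
    let φ : G ⧸ Γ → H ⧸ (Γ.map e.toMulEquiv.toMonoidHom) := Quotient.map' e hle
    have hφ : Continuous φ := by
      refine continuous_quot_lift _ ?_
      exact (QuotientGroup.continuous_mk).comp e.continuous_toFun
    have hφs : ∀ (g : G) (x : G ⧸ Γ), φ (g • x) = e g • φ x := by
      intro g x
      induction x using QuotientGroup.induction_on with
      | H z =>
        show ((e (g * z) : H) : H ⧸ (Γ.map e.toMulEquiv.toMonoidHom)) = ((e g * e z : H) : H ⧸ (Γ.map e.toMulEquiv.toMonoidHom))
        rw [map_mul]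
    let mG : MeasurableSpace (G ⧸ Γ) := borel _
    let mH : MeasurableSpace (H ⧸ (Γ.map e.toMulEquiv.toMonoidHom)) := borel _
    have bG : BorelSpace (G ⧸ Γ) := ⟨rfl⟩
    have bH : BorelSpace (H ⧸ (Γ.map e.toMulEquiv.toMonoidHom)) := ⟨rfl⟩
    have hm : Measurable φ := hφ.measurable
    refine ⟨ν.map φ, ?_, ?_, ?_⟩
    · rw [Measure.map_apply hm MeasurableSet.univ, Set.preimage_univ]
      exact h0
    · rw [Measure.map_apply hm MeasurableSet.univ, Set.preimage_univ]
      exact h1
    · intro k s hs
      obtain ⟨g, rfl⟩ : ∃ g, e g = k := ⟨e.symm k, e.apply_symm_apply k⟩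
      have hs' : MeasurableSet ((fun x => e g • x) ⁻¹' s) := (measurable_const_smul (e g)) hs
      rw [Measure.map_apply hm hs', Measure.map_apply hm hs, ← hinv g _ (hm hs)]
      congr 1
      ext x
      simp only [Set.mem_preimage]
      rw [hφs]

/-- A subgroup and its image. -/
noncomputable def mapEquiv (e : G ≃ₜ* H) (Γ : Subgroup G) : Γ ≃* (Γ.map e.toMulEquiv.toMonoidHom) :=
  Γ.equivMapOfInjective e.toMulEquiv.toMonoidHom e.toMulEquiv.injective

end Pool.Agent.Helper66.LG
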