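import Pool.Agent.Helper66.LG.Ad

/-!
# Layer LG (MP_0f6f3f_an): one parameter groups of a Lie group

`og G v`: the integral curve through `1` of the left invariant vector field of `v`; `og_add`, `og_cj`, `og_hasMFDerivAt`.
-/

set_option autoImplicit false
set_option linter.unusedSectionVars false

open scoped Manifold ContDiff
open Set Filter Topology VectorField

namespace Pool.Agent.Helper66.LG

variable {E : Type} [NormedAddCommGroup E] [NormedSpace ℝ E] [CompleteSpace E]
  {G : Type} [TopologicalSpace G] [ChartedSpace E G] [Group G]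
variable [LieGroup 𝓘(ℝ, E) ∞ G]

variable (G) in
/-- The left invariant vector field of `v`. -/
noncomputable abbrev IV (v : E) : (x : G) → TangentSpace 𝓘(ℝ, E) x := mulInvariantVectorField (I := 𝓘(ℝ, E)) (G := G) v

theorem contMDiff_field (v : E) :
    ContMDiff 𝓘(ℝ, E) 𝓘(ℝ, E).tangent 1 (fun g : G => (⟨g, IV G v g⟩ : TangentBundle 𝓘(ℝ, E) G)) :=
  (contMDiff_mulInvariantVectorField (I := 𝓘(ℝ, E)) (G := G) v).of_le (by
    rw [minSmoothness_of_isRCLikeNormedField]
    exact one_le_two)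

/-- Left translates of integral curves. -/
theorem IsMIntegralCurveOn.mul_left {γ : ℝ → G} {v : E} {s : Set ℝ}
    (h : IsMIntegralCurveOn γ (IV G v) s) (x : G) :
    IsMIntegralCurveOn (fun t => x * γ t) (IV G v) s := by
  intro t ht
  have h1 := HasMFDerivAt.comp_hasMFDerivWithinAt t (hasMFDerivAt_mul (E := E) x (γ t)) (h t ht)
  refine h1.congr_mfderiv ?_
  refine ContinuousLinearMap.ext fun r => ?_
  let r' : ℝ := r
  let A : E →L[ℝ] E := mfderiv 𝓘(ℝ, E) 𝓘(ℝ, E) (fun z : G => x * z) (γ t)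
  have h2 : A (r' • VF E v (γ t)) = r' • VF E v (x * γ t) :=
    (map_smul A r' (VF E v (γ t))).trans (congrArg (fun w : E => r' • w) (mfderiv_mul_VF x (γ t) v))
  exact h2

/-- The image of an integral curve under an inner automorphism. -/
theorem IsMIntegralCurve.cj {γ : ℝ → G} {v : E}
    (h : IsMIntegralCurve γ (IV G v)) (x : G) :
    IsMIntegralCurve (fun t => cj x (γ t)) (IV G (Ad E x v)) := by
  intro t
  have h0 : HasMFDerivAt 𝓘(ℝ, E) 𝓘(ℝ, E) (LG.cj x) (γ t) (mfderiv 𝓘(ℝ, E) 𝓘(ℝ, E) (LG.cj x) (γ t)) :=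
    ((contMDiff_cj E x).mdifferentiable (by simp) (γ t)).hasMFDerivAt
  have h1 := HasMFDerivAt.comp t h0 (h t)
  refine h1.congr_mfderiv ?_
  refine ContinuousLinearMap.ext fun r => ?_
  let r' : ℝ := r
  let A : E →L[ℝ] E := mfderiv 𝓘(ℝ, E) 𝓘(ℝ, E) (LG.cj x) (γ t)
  have h2 : A (r' • VF E v (γ t)) = r' • VF E (Ad E x v) (LG.cj x (γ t)) :=
    (map_smul A r' (VF E v (γ t))).trans (congrArg (fun w : E => r' • w) (mfderiv_cj_VF x (γ t) v))
  exact h2

variable [T2Space G]

/-- One parameter groups: existence. -/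
theorem exists_curve (v : E) :
    ∃ γ : ℝ → G, γ 0 = 1 ∧ IsMIntegralCurve γ (IV G v) := by
  obtain ⟨γ, h0, hγ⟩ := exists_isMIntegralCurveAt_of_contMDiffAt_boundaryless (I := 𝓘(ℝ, E)) (t₀ := (0 : ℝ)) (x₀ := (1 : G))
    (contMDiff_field v).contMDiffAt
  obtain ⟨ε, hε, h1⟩ := isMIntegralCurveAt_iff'.1 hγ
  refine exists_isMIntegralCurve_of_isMIntegralCurveOn (contMDiff_field v) hε (fun x => ⟨fun t => x * γ t, ?_, ?_⟩) 1
  · show x * γ 0 = x
    rw [h0, mul_one]
  · rw [Real.ball_eq_Ioo, zero_sub, zero_add] at h1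
    exact IsMIntegralCurveOn.mul_left h1 x

variable (G) in
/-- The one parameter group of `v`. -/
noncomputable def og (v : E) : ℝ → G := (exists_curve v).choose

theorem og_zero (v : E) : og G v 0 = 1 := (exists_curve v).choose_spec.1

theorem og_curve (v : E) : IsMIntegralCurve (og G v) (IV G v) := (exists_curve v).choose_spec.2

theorem og_unique {v : E} {γ : ℝ → G} (h0 : γ 0 = 1) (h : IsMIntegralCurve γ (IV G v)) : γ = og G v :=
  isMIntegralCurve_Ioo_eq_of_contMDiff_boundaryless (t₀ := (0 : ℝ)) (contMDiff_field v) h (og_curve v) (by rw [h0, og_zero])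

theorem og_add (v : E) (s t : ℝ) : og G v (s + t) = og G v s * og G v t := by
  have h1 : IsMIntegralCurve (fun t => og G v s * og G v t) (IV G v) := by
    rw [isMIntegralCurve_iff_isMIntegralCurveOn]
    exact IsMIntegralCurveOn.mul_left (isMIntegralCurve_iff_isMIntegralCurveOn.1 (og_curve v)) _
  have h2 : IsMIntegralCurve (og G v ∘ (· + s)) (IV G v) := (og_curve v).comp_add s
  have h3 := isMIntegralCurve_Ioo_eq_of_contMDiff_boundaryless (t₀ := (0 : ℝ)) (contMDiff_field v) h2 h1 (by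
    simp [og_zero])
  have h4 := congrFun h3 t
  simp only [Function.comp_apply] at h4
  rw [add_comm]
  exact h4

theorem og_cj (x : G) (v : E) (t : ℝ) : cj x (og G v t) = og G (Ad E x v) t := by
  have h1 := og_unique (E := E) (G := G) (γ := fun t => cj x (og G v t)) (by rw [og_zero, cj_one]) (IsMIntegralCurve.cj (og_curve v) x)
  exact congrFun h1 t

theorem og_continuous (v : E) : Continuous (og G v) := (og_curve v).continuous

/-- The derivative at `0`. -/
theorem og_hasMFDerivAt (v : E) :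
    HasMFDerivAt 𝓘(ℝ, ℝ) 𝓘(ℝ, E) (og G v) 0 ((1 : ℝ →L[ℝ] ℝ).smulRight v : ℝ →L[ℝ] E) := by
  have h1 := og_curve (E := E) (G := G) v 0
  have h2 : VF E v (og G v 0) = v := by
    rw [og_zero, VF_one]
  exact h1.congr_mfderiv (congrArg (fun w : E => (1 : ℝ →L[ℝ] ℝ).smulRight w) h2)

end Pool.Agent.Helper66.LG
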