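import Pool.Agent.Helper66.RK.StmtDef

/-!
# Layer LG (MP_0f6f3f_an): isomorphic groups have isomorphic group von Neumann algebras
-/

set_option autoImplicit false
set_option linter.unusedSectionVars false

open scoped ENNReal

namespace Pool.Agent.Helper66.LG

open Pool.Agent.Helper84.GVN Pool.Agent.Helper66.RKS

variable {G H : Type} [Group G] [Group H]

theorem memℓp_tr (e : G ≃ H) {F : G → ℂ} (hF : Memℓp F 2) : Memℓp (fun x => F (e.symm x)) 2 := by
  have h1 : Summable fun x => ‖F x‖ ^ (2 : ℝ) := by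
    simpa using hF.summable (by norm_num)
  apply memℓp_gen
  have h2 := (Equiv.summable_iff e.symm).2 h1
  simpa [Function.comp_def] using h2

/-- The unitary `ℓ²(G) → ℓ²(H)`. -/
noncomputable def trW (e : G ≃ H) : HL G ≃ₗᵢ[ℂ] HL H where
  toFun f := HL.mk (fun x => f.val (e.symm x)) (memℓp_tr e f.memℓp)
  invFun f := HL.mk (fun x => f.val (e x)) (memℓp_tr e.symm f.memℓp)
  map_add' _ _ := rfl
  map_smul' _ _ := rfl
  left_inv f := by
    apply Subtype.ext
    funext x
    show f.val (e.symm (e x)) = f.val x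
    rw [Equiv.symm_apply_apply]
  right_inv f := by
    apply Subtype.ext
    funext x
    show f.val (e (e.symm x)) = f.val x
    rw [Equiv.apply_symm_apply]
  norm_map' f := by
    have e1 : ∀ f : HL G, ‖f‖ ^ (2 : ℝ) = ∑' x, ‖f.val x‖ ^ (2 : ℝ) := by
      intro f
      have := lp.norm_rpow_eq_tsum (p := 2) (E := fun _ : G => ℂ) (by norm_num) f
      rw [ENNReal.toReal_ofNat] at this
      exact this
    have e2 : ∀ f : HL H, ‖f‖ ^ (2 : ℝ) = ∑' x, ‖f.val x‖ ^ (2 : ℝ) := by
      intro f
      have := lp.norm_rpow_eq_tsum (p := 2) (E := fun _ : H => ℂ) (by norm_num) f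
      rw [ENNReal.toReal_ofNat] at this
      exact this
    have h : ‖HL.mk (fun x => f.val (e.symm x)) (memℓp_tr e f.memℓp)‖ ^ (2 : ℝ) = ‖f‖ ^ (2 : ℝ) := by
      rw [e1, e2]
      exact Equiv.tsum_eq e.symm (fun x => ‖f.val x‖ ^ (2 : ℝ))
    exact (Real.rpow_left_inj (norm_nonneg _) (norm_nonneg _) (by norm_num)).1 h

/-- Conjugation by the unitary. -/
noncomputable def trB (e : G ≃ H) : BH G ≃⋆ₐ[ℂ] BH H := (trW e).conjStarAlgEquiv

theorem trB_shift (e : G ≃* H) (g : G) : trB e.toEquiv (shift g) = shift (e g) := by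
  refine ContinuousLinearMap.ext fun f => ?_
  apply Subtype.ext
  funext x
  show f.val (e (g⁻¹ * e.symm x)) = f.val ((e g)⁻¹ * x)
  rw [map_mul, map_inv, MulEquiv.apply_symm_apply]

theorem trB_mem (e : G ≃* H) {T : BH G} (hT : T ∈ groupAlg G) : trB e.toEquiv T ∈ groupAlg H := by
  rw [groupAlg, StarSubalgebra.mem_centralizer_iff] at hT ⊢
  intro S hS
  have key : (trB e.toEquiv).symm S ∈ Set.centralizer (Set.range fun g : G => shift g) := by
    rintro _ ⟨g, rfl⟩
    have h1 := hS (shift (e g)) ⟨e g, rfl⟩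
    have h2 : trB e.toEquiv (shift g * (trB e.toEquiv).symm S) = trB e.toEquiv ((trB e.toEquiv).symm S * shift g) := by
      rw [map_mul, map_mul, trB_shift, StarAlgEquiv.apply_symm_apply]
      exact h1
    exact (trB e.toEquiv).injective h2
  obtain ⟨h1, h2⟩ := hT _ key
  constructor
  · have h3 := congrArg (trB e.toEquiv) h1
    rw [map_mul, map_mul, StarAlgEquiv.apply_symm_apply] at h3
    exact h3
  · have h3 := congrArg (trB e.toEquiv) h2
    rw [map_mul, map_mul, map_star, StarAlgEquiv.apply_symm_apply] at h3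
    exact h3

theorem trB_symm (e : G ≃* H) (T : BH H) : trB e.symm.toEquiv T = (trB e.toEquiv).symm T := rfl

/-- Isomorphic groups have isomorphic group von Neumann algebras. -/
theorem isoL_of_mulEquiv (e : G ≃* H) : IsoL G H := by
  refine ⟨{
    toFun := fun x => Subtype.mk (p := fun x : BH H => x ∈ groupAlg H) (trB e.toEquiv x.1) (trB_mem e x.2)
    invFun := fun x => Subtype.mk (p := fun x : BH G => x ∈ groupAlg G) (trB e.symm.toEquiv x.1) (trB_mem e.symm x.2)
    left_inv := fun x => Subtype.ext ?_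
    right_inv := fun x => Subtype.ext ?_
    map_mul' := fun x y => Subtype.ext ?_
    map_add' := fun x y => Subtype.ext ?_
    map_star' := fun x => Subtype.ext ?_
    map_smul' := fun c x => Subtype.ext ?_ }⟩
  · exact (trB e.toEquiv).symm_apply_apply x.1
  · exact (trB e.toEquiv).apply_symm_apply x.1
  · exact map_mul (trB e.toEquiv) x.1 y.1
  · exact map_add (trB e.toEquiv) x.1 y.1
  · exact map_star (trB e.toEquiv) x.1
  · exact map_smul (trB e.toEquiv) c x.1

theorem isoL_trans {A B C : Type} [Group A] [Group B] [Group C] (h : IsoL A B) (h' : IsoL B C) : IsoL A C := by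
  obtain ⟨e⟩ := h
  obtain ⟨e'⟩ := h'
  exact ⟨e.trans e'⟩

end Pool.Agent.Helper66.LG
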