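import Pool.Agent.Helper66.LG.Iso
import Pool.Agent.Helper66.LG.VN
import Pool.Agent.Helper66.LG.Lat

/-!
# Layer LG (MP_0f6f3f_an): the real rank, and the statement for abstract Lie groups
-/

set_option autoImplicit false
set_option linter.unusedSectionVars false

open scoped Manifold ContDiff
open Set Filter Topology Matrix
open Pool.Agent.Helper96.SA Pool.Agent.Helper96.TO Pool.Agent.Helper66.RKS
open Pool.Agent.Helper35.TZ (autC component_le)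

namespace Pool.Agent.Helper66.LG

section Rank

variable (L : Type) [LieRing L] [LieAlgebra ℝ L]

/-- The real rank of the real semisimple Lie algebra `L` is at least `r`: there are a Cartan involution `θ` of `L` (an involutive automorphism such
that `-κ(x, θ x) > 0` for all `x ≠ 0`, where `κ` is the Killing form) and a commutative subspace of dimension at least `r` on which `θ = -1`. -/
def RealRankGE (r : ℕ) : Prop :=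
  ∃ θ : L ≃ₗ⁅ℝ⁆ L, (∀ x, θ (θ x) = x) ∧ (∀ x, x ≠ 0 → 0 < -killingForm ℝ L x (θ x)) ∧
    ∃ a : Submodule ℝ L, (∀ x ∈ a, θ x = -x) ∧ (∀ x ∈ a, ∀ y ∈ a, ⁅x, y⁆ = 0) ∧ r ≤ Module.finrank ℝ a

variable {L}

theorem exists_cartanBasis [FiniteDimensional ℝ L] {θ : L ≃ₗ⁅ℝ⁆ L} (h1 : ∀ x, θ (θ x) = x) (h2 : ∀ x, x ≠ 0 → 0 < -killingForm ℝ L x (θ x)) :
    ∃ (N : ℕ) (b : Module.Basis (Fin N) ℝ L), CartanBasis θ b := by
  let B : LinearMap.BilinForm ℝ L := -((killingForm ℝ L).compl₂ θ.toLinearEquiv.toLinearMap)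
  have hB : ∀ x y, B x y = -killingForm ℝ L x (θ y) := fun x y => rfl
  have hs : LinearMap.IsSymm B := by
    refine ⟨fun x y => ?_⟩
    show B x y = B y x
    rw [hB, hB]
    congr 1
    have e1 : killingForm ℝ L x (θ y) = killingForm ℝ L (θ x) (θ (θ y)) := (LieAlgebra.killingForm_of_equiv_apply θ x (θ y)).symm
    rw [e1, h1]
    exact LieModule.traceForm_comm ℝ L L _ _
  obtain ⟨v, hv⟩ := LinearMap.BilinForm.exists_orthogonal_basis hs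
  have hpos : ∀ i, 0 < B (v i) (v i) := fun i => h2 _ (v.ne_zero i)
  have hu : ∀ i, IsUnit ((Real.sqrt (B (v i) (v i)))⁻¹) := fun i => (inv_ne_zero (Real.sqrt_ne_zero'.2 (hpos i))).isUnit
  refine ⟨Module.finrank ℝ L, v.isUnitSMul hu, h1, fun i j => ?_⟩
  rw [← hB, Module.Basis.isUnitSMul_apply, Module.Basis.isUnitSMul_apply, map_smul, map_smul, LinearMap.smul_apply, smul_eq_mul, smul_eq_mul]
  by_cases hij : i = j
  · subst hij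
    rw [if_pos rfl, ← mul_assoc, ← mul_inv, Real.mul_self_sqrt (hpos i).le, inv_mul_cancel₀ (hpos i).ne']
  · rw [if_neg hij]
    have e2 : B (v i) (v j) = 0 := hv hij
    rw [e2, mul_zero, mul_zero]

theorem rankL_ge {N : ℕ} {θ : L ≃ₗ⁅ℝ⁆ L} (b : Module.Basis (Fin N) ℝ L) {a : Submodule ℝ L} (h1 : ∀ x ∈ a, θ x = -x) (h2 : ∀ x ∈ a, ∀ y ∈ a, ⁅x, y⁆ = 0) :
    Module.finrank ℝ a ≤ rankL θ := by
  have hF : Module.Finite ℝ L := Module.Finite.of_basis b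
  refine le_csSup ⟨Module.finrank ℝ L, ?_⟩ ⟨a, h1, h2, rfl⟩
  rintro _ ⟨a', -, -, rfl⟩
  exact Submodule.finrank_le a'

end Rank

variable {E₁ E₂ : Type} [NormedAddCommGroup E₁] [NormedSpace ℝ E₁] [FiniteDimensional ℝ E₁] [NormedAddCommGroup E₂] [NormedSpace ℝ E₂] [FiniteDimensional ℝ E₂]
  {G₁ G₂ : Type} [TopologicalSpace G₁] [ChartedSpace E₁ G₁] [Group G₁] [LieGroup 𝓘(ℝ, E₁) ∞ G₁] [T2Space G₁] [ConnectedSpace G₁]
  [TopologicalSpace G₂] [ChartedSpace E₂ G₂] [Group G₂] [LieGroup 𝓘(ℝ, E₂) ∞ G₂] [T2Space G₂] [ConnectedSpace G₂]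

omit [FiniteDimensional ℝ E₁] [FiniteDimensional ℝ E₂] in
/-- From lattices of `G₁`, `G₂` to lattices of the adjoint groups. -/
theorem of_core [CompleteSpace E₁] [CompleteSpace E₂] (hc₁ : Subgroup.center G₁ = ⊥) (hc₂ : Subgroup.center G₂ = ⊥) {N₁ N₂ : ℕ}
    {θ₁ : GroupLieAlgebra 𝓘(ℝ, E₁) G₁ ≃ₗ⁅ℝ⁆ GroupLieAlgebra 𝓘(ℝ, E₁) G₁} {b₁ : Module.Basis (Fin N₁) ℝ (GroupLieAlgebra 𝓘(ℝ, E₁) G₁)}
    (h₁ : CartanBasis θ₁ b₁)
    {θ₂ : GroupLieAlgebra 𝓘(ℝ, E₂) G₂ ≃ₗ⁅ℝ⁆ GroupLieAlgebra 𝓘(ℝ, E₂) G₂} {b₂ : Module.Basis (Fin N₂) ℝ (GroupLieAlgebra 𝓘(ℝ, E₂) G₂)}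
    (h₂ : CartanBasis θ₂ b₂)
    (core : ∀ (Γ : Subgroup (autC b₁)) (Λ : Subgroup (autC b₂)), Pool.Agent.Helper96.FR.Lattice Γ → Pool.Agent.Helper96.FR.Lattice Λ → IsoL Γ Λ →
      Nonempty (GroupLieAlgebra 𝓘(ℝ, E₁) G₁ ≃ₗ⁅ℝ⁆ GroupLieAlgebra 𝓘(ℝ, E₂) G₂))
    {Γ : Subgroup G₁} {Λ : Subgroup G₂} (hΓ : Pool.Agent.Helper96.FR.Lattice Γ) (hΛ : Pool.Agent.Helper96.FR.Lattice Λ) (h : IsoL Γ Λ) :
    ∃ e : G₁ ≃* G₂, ContMDiff 𝓘(ℝ, E₁) 𝓘(ℝ, E₂) ∞ e ∧ ContMDiff 𝓘(ℝ, E₂) 𝓘(ℝ, E₁) ∞ e.symm := by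
  have i1 : IsTopologicalGroup G₁ := topologicalGroup_of_lieGroup 𝓘(ℝ, E₁) ∞
  have i2 : IsTopologicalGroup G₂ := topologicalGroup_of_lieGroup 𝓘(ℝ, E₂) ∞
  obtain ⟨e₁, -⟩ := exists_ad hc₁ h₁
  obtain ⟨e₂, -⟩ := exists_ad hc₂ h₂
  obtain ⟨f⟩ := core _ _ (lattice_map e₁ hΓ) (lattice_map e₂ hΛ)
    (isoL_trans (isoL_of_mulEquiv (mapEquiv e₁ Γ).symm) (isoL_trans h (isoL_of_mulEquiv (mapEquiv e₂ Λ))))
  exact exists_lieIso hc₁ hc₂ h₁ f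

end Pool.Agent.Helper66.LG
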