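import Pool.Agent.Helper66.LG.Homeo

/-!
# Layer LG (MP_0f6f3f_an): smoothness of homomorphisms

`contMDiffAt_of_comp`: maps into an immersed manifold. `contMDiff_hom`, `smooth_rel`: a continuous homomorphism into a group with trivial centre is smooth if its composition with `Ad` is smooth.
-/

set_option autoImplicit false
set_option linter.unusedSectionVars false

open scoped Manifold ContDiff Pointwise
open Set Filter Topology Matrix
open Pool.Agent.Helper96.SA Pool.Agent.Helper96.TO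
open Pool.Agent.Helper35.TZ (autC component_le)

namespace Pool.Agent.Helper66.LG

section Imm

variable {E E' V : Type} [NormedAddCommGroup E] [NormedSpace ℝ E] [NormedAddCommGroup E'] [NormedSpace ℝ E'] [NormedAddCommGroup V] [NormedSpace ℝ V]
  [FiniteDimensional ℝ E] [FiniteDimensional ℝ V]
  {M M' : Type} [TopologicalSpace M] [ChartedSpace E M] [IsManifold 𝓘(ℝ, E) ∞ M] [TopologicalSpace M'] [ChartedSpace E' M']

/-- Maps into an immersed manifold. -/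
theorem contMDiffAt_of_comp {q : M → V} {x : M} (hq : ContMDiffAt 𝓘(ℝ, E) 𝓘(ℝ, V) ∞ q x) {A : E →L[ℝ] V} (hA : Function.Injective A)
    (hqA : HasMFDerivAt 𝓘(ℝ, E) 𝓘(ℝ, V) q x A) {e : M' → M} {y : M'} (hy : e y = x) (he : ContinuousAt e y)
    (h : ContMDiffAt 𝓘(ℝ, E') 𝓘(ℝ, V) ∞ (fun z => q (e z)) y) : ContMDiffAt 𝓘(ℝ, E') 𝓘(ℝ, E) ∞ e y := by
  subst hy
  have hE : CompleteSpace E := FiniteDimensional.complete ℝ E
  obtain ⟨π₀, hπ₀⟩ := LinearMap.exists_leftInverse_of_injective (A : E →ₗ[ℝ] V) (LinearMap.ker_eq_bot.2 hA)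
  let π : V →L[ℝ] E := LinearMap.toContinuousLinearMap π₀
  have hπ : ∀ v, π (A v) = v := fun v => LinearMap.congr_fun hπ₀ v
  set φ := extChartAt 𝓘(ℝ, E) (e y) with hφ
  let w : E → E := fun u => π (q (φ.symm u))
  have hsx : φ.symm (φ (e y)) = e y := extChartAt_to_inv (e y)
  have hw : ContDiffAt ℝ ∞ w (φ (e y)) := by
    have h1 : ContMDiffAt 𝓘(ℝ, E) 𝓘(ℝ, E) ∞ φ.symm (φ (e y)) :=
      (contMDiffOn_extChartAt_symm (e y)).contMDiffAt (extChartAt_target_mem_nhds (e y))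
    have h2 : ContMDiffAt 𝓘(ℝ, E) 𝓘(ℝ, V) ∞ q (φ.symm (φ (e y))) := by
      rw [hsx]
      exact hq
    have h3 := π.contMDiff.contMDiffAt.comp (φ (e y)) (h2.comp (φ (e y)) h1) (n := ∞)
    exact contMDiffAt_iff_contDiffAt.1 h3
  have hd : HasFDerivAt w ((ContinuousLinearEquiv.refl ℝ E : E ≃L[ℝ] E) : E →L[ℝ] E) (φ (e y)) := by
    have h1 : HasFDerivWithinAt (fun u => q (φ.symm u)) A (range 𝓘(ℝ, E)) (φ (e y)) := hqA.2
    have h2 : HasFDerivAt (fun u => q (φ.symm u)) A (φ (e y)) := by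
      rw [show range 𝓘(ℝ, E) = univ by simp] at h1
      exact hasFDerivWithinAt_univ.1 h1
    have h3 := π.hasFDerivAt.comp (φ (e y)) h2
    refine h3.congr_fderiv ?_
    ext v
    exact hπ v
  have hs := hw.to_localInverse hd (by simp)
  set s := hw.localInverse hd (by simp) with hsdef
  have hl : ∀ᶠ u in 𝓝 (φ (e y)), s (w u) = u := (hw.hasStrictFDerivAt' hd (by simp)).eventually_left_inverse
  rw [contMDiffAt_iff_target]
  refine ⟨he, ?_⟩
  have hce : ContinuousAt (fun z => φ (e z)) y := (continuousAt_extChartAt (e y)).comp he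
  have h1 : ContMDiffAt 𝓘(ℝ, E') 𝓘(ℝ, E) ∞ (fun z => s (π (q (e z)))) y := by
    have h2 : ContMDiffAt 𝓘(ℝ, E') 𝓘(ℝ, E) ∞ (fun z => π (q (e z))) y := π.contMDiff.contMDiffAt.comp y h
    have h3 : ContMDiffAt 𝓘(ℝ, E) 𝓘(ℝ, E) ∞ s (π (q (e y))) := by
      refine contMDiffAt_iff_contDiffAt.2 ?_
      have h4 : w (φ (e y)) = π (q (e y)) := by
        show π (q (φ.symm (φ (e y)))) = _
        rw [hsx]
      rw [← h4]
      exact hs
    exact h3.comp y h2
  refine h1.congr_of_eventuallyEq ?_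
  have h2 : ∀ᶠ z in 𝓝 y, e z ∈ φ.source := he.preimage_mem_nhds (extChartAt_source_mem_nhds (e y))
  filter_upwards [h2, hce.eventually hl] with z hz1 hz2
  have h3 : φ.symm (φ (e z)) = e z := φ.left_inv hz1
  show φ (e z) = s (π (q (e z)))
  rw [← h3]
  rw [show φ (φ.symm (φ (e z))) = φ (e z) by rw [h3]]
  exact hz2.symm

end Imm

section Hom

variable {E₁ E₂ : Type} [NormedAddCommGroup E₁] [NormedSpace ℝ E₁] [NormedAddCommGroup E₂] [NormedSpace ℝ E₂] [CompleteSpace E₁] [CompleteSpace E₂]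
  {G₁ G₂ : Type} [TopologicalSpace G₁] [ChartedSpace E₁ G₁] [Group G₁] [LieGroup 𝓘(ℝ, E₁) ∞ G₁]
  [TopologicalSpace G₂] [ChartedSpace E₂ G₂] [Group G₂] [LieGroup 𝓘(ℝ, E₂) ∞ G₂] [T2Space G₂] [ConnectedSpace G₂]
  {N : ℕ}

/-- Continuous homomorphisms are smooth, when composed with `Ad` they are. -/
theorem contMDiff_hom [FiniteDimensional ℝ E₂] (hc : Subgroup.center G₂ = ⊥) (e : G₁ →* G₂) (he : Continuous e)
    (h : ContMDiffAt 𝓘(ℝ, E₁) 𝓘(ℝ, E₂ →L[ℝ] E₂) ∞ (fun g => Ad E₂ (e g)) 1) : ContMDiff 𝓘(ℝ, E₁) 𝓘(ℝ, E₂) ∞ e := by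
  have hM : IsManifold 𝓘(ℝ, E₂) ∞ G₂ := inferInstance
  have h1 : ContMDiffAt 𝓘(ℝ, E₁) 𝓘(ℝ, E₂) ∞ e 1 :=
    contMDiffAt_of_comp (q := (Ad E₂ : G₂ → E₂ →L[ℝ] E₂)) (x := (1 : G₂)) (contMDiff_Ad E₂).contMDiffAt (dAd_injective hc) (hasMFDerivAt_Ad G₂)
      (map_one e) he.continuousAt h
  intro g
  have h2 : (e : G₁ → G₂) = (fun z : G₂ => e g * z) ∘ e ∘ fun z : G₁ => g⁻¹ * z := by
    funext z
    simp
  rw [h2]
  have h3 : ContMDiffAt 𝓘(ℝ, E₁) 𝓘(ℝ, E₁) ∞ (fun z : G₁ => g⁻¹ * z) g := contMDiff_mul_left.contMDiffAt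
  have h4 : ContMDiffAt 𝓘(ℝ, E₁) 𝓘(ℝ, E₂) ∞ e ((fun z : G₁ => g⁻¹ * z) g) := by
    rw [show (fun z : G₁ => g⁻¹ * z) g = 1 from inv_mul_cancel g]
    exact h1
  exact (contMDiff_mul_left.contMDiffAt).comp g (h4.comp g h3)

theorem smooth_rel (hc : Subgroup.center G₂ = ⊥) (b : Module.Basis (Fin N) ℝ (GroupLieAlgebra 𝓘(ℝ, E₁) G₁))
    (b' : Module.Basis (Fin N) ℝ (GroupLieAlgebra 𝓘(ℝ, E₂) G₂)) (e : G₁ →* G₂) (he : Continuous e) (hrel : ∀ g, rp b' (e g) = rp b g) :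
    ContMDiff 𝓘(ℝ, E₁) 𝓘(ℝ, E₂) ∞ e := by
  have hF1 : FiniteDimensional ℝ E₁ := Module.Finite.of_basis (bE b)
  have hF2 : FiniteDimensional ℝ E₂ := Module.Finite.of_basis (bE b')
  refine contMDiff_hom hc e he ?_
  let f : E₁ ≃L[ℝ] E₂ := ((bE b).equiv (bE b') (Equiv.refl _)).toContinuousLinearEquiv
  have h1 : ∀ g : G₁, Ad E₂ (e g) = (f : E₁ →L[ℝ] E₂).comp ((Ad E₁ g).comp (f.symm : E₂ →L[ℝ] E₁)) := by
    intro g
    apply mx_injective b'
    have h2 : mx b' (Ad E₂ (e g)) = mx b (Ad E₁ g) := by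
      rw [mx_rp, mx_rp, hrel]
    rw [h2]
    have hfb : ∀ j, f.symm (bE b' j) = bE b j := fun j => by
      have h3 : f (bE b j) = bE b' j := Module.Basis.equiv_apply (bE b) j (bE b') (Equiv.refl _)
      rw [← h3, ContinuousLinearEquiv.symm_apply_apply]
    have hfr : ∀ v i, (bE b').repr (f v) i = (bE b).repr v i := by
      intro v i
      conv_lhs => rw [← (bE b).sum_repr v]
      rw [map_sum, map_sum, Finsupp.finsetSum_apply]
      rw [Finset.sum_eq_single i]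
      · rw [map_smul, map_smul, Finsupp.smul_apply]
        have h3 : f (bE b i) = bE b' i := Module.Basis.equiv_apply (bE b) i (bE b') (Equiv.refl _)
        rw [h3, Module.Basis.repr_self, Finsupp.single_eq_same, smul_eq_mul, mul_one]
      · intro k _ hk
        rw [map_smul, map_smul, Finsupp.smul_apply]
        have h3 : f (bE b k) = bE b' k := Module.Basis.equiv_apply (bE b) k (bE b') (Equiv.refl _)
        rw [h3, Module.Basis.repr_self, Finsupp.single_eq_of_ne hk.symm, smul_zero]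
      · exact fun h => absurd (Finset.mem_univ i) h
    ext i j
    have e1 : mx b' ((f : E₁ →L[ℝ] E₂).comp ((Ad E₁ g).comp (f.symm : E₂ →L[ℝ] E₁))) i j =
        (bE b').repr (f (Ad E₁ g (f.symm (bE b' j)))) i := LinearMap.toMatrixAlgEquiv_apply _ _ _ _
    have e2 : mx b (Ad E₁ g) i j = (bE b).repr (Ad E₁ g (bE b j)) i := LinearMap.toMatrixAlgEquiv_apply _ _ _ _
    rw [e1, e2, hfb, hfr]
  have h2 : (fun g => Ad E₂ (e g)) = fun g => (f : E₁ →L[ℝ] E₂).comp ((Ad E₁ g).comp (f.symm : E₂ →L[ℝ] E₁)) := funext h1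
  rw [h2]
  exact (contMDiff_const.clm_comp ((contMDiff_Ad E₁).clm_comp contMDiff_const)).contMDiffAt

end Hom

end Pool.Agent.Helper66.LG
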