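import Pool.Agent.Helper66.LG.Aut

/-!
# Layer LG (MP_0f6f3f_an): the image of the adjoint representation

`rp_mem_autC`, `exists_rp`: for a Lie algebra with a Cartan involution and a connected group with trivial centre, the image of `Ad` is the identity component `autC b` of `Aut(L)`.
-/

set_option autoImplicit false
set_option linter.unusedSectionVars false

open scoped Manifold ContDiff
open Set Filter Topology Matrix
open Pool.Agent.Helper96.SA Pool.Agent.Helper96.TO
open Pool.Agent.Helper35.TZ (autC component_le)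

namespace Pool.Agent.Helper66.LG

variable {E : Type} [NormedAddCommGroup E] [NormedSpace ℝ E] [CompleteSpace E]
  {G : Type} [TopologicalSpace G] [ChartedSpace E G] [Group G]
variable [LieGroup 𝓘(ℝ, E) ∞ G]
  {N : ℕ}

/-- `Ad g` is in the identity component of `Aut(L)`. -/
theorem rp_mem_autC [ConnectedSpace G] (b : Module.Basis (Fin N) ℝ (GroupLieAlgebra 𝓘(ℝ, E) G)) (g : G) : rp b g ∈ autC b := by
  let f : G → autG b := fun g => ⟨rp b g, rp_mem b g⟩
  have hf : Continuous f := (continuous_rp b).subtype_mk _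
  have h1 : IsPreconnected (range f) := isPreconnected_range hf
  have h2 : (1 : autG b) ∈ range f := ⟨1, Subtype.ext (map_one (rp b))⟩
  have h3 : range f ⊆ connectedComponent (1 : autG b) := h1.subset_connectedComponent h2
  refine Subgroup.mem_map.2 ⟨f g, h3 ⟨g, rfl⟩, rfl⟩

/-- **Every derivation comes from a one parameter group.** -/
theorem exists_dAd [T2Space G] [ConnectedSpace G] (hc : Subgroup.center G = ⊥) {θ : GroupLieAlgebra 𝓘(ℝ, E) G ≃ₗ⁅ℝ⁆ GroupLieAlgebra 𝓘(ℝ, E) G}
    {b : Module.Basis (Fin N) ℝ (GroupLieAlgebra 𝓘(ℝ, E) G)} (h : CartanBasis θ b) (x : GroupLieAlgebra 𝓘(ℝ, E) G) :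
    ∃ v : E, mx b (dAd E G v) = TT_to b x := by
  let T : E →ₗ[ℝ] Mat N := (mx b).toLinearMap ∘ₗ (dAd E G).toLinearMap
  have hT : Function.Injective T := (mx_injective b).comp (dAd_injective hc)
  have hF : Module.Finite ℝ (GroupLieAlgebra 𝓘(ℝ, E) G) := Module.Finite.of_basis b
  have hF2 : Module.Finite ℝ E := Module.Finite.of_basis (bE b)
  have hle : LinearMap.range T ≤ LinearMap.range (TT_to b) := by
    rintro _ ⟨v, rfl⟩
    obtain ⟨y, hy⟩ := TT_surj_to h (dAd_mem_lie b v)
    exact ⟨y, hy⟩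
  have h1 : Module.finrank ℝ (LinearMap.range (TT_to b)) = N := by
    rw [LinearMap.finrank_range_of_inj (TT_inj_to h), Module.finrank_eq_card_basis b, Fintype.card_fin]
  have h2 : Module.finrank ℝ (LinearMap.range T) = N := by
    rw [LinearMap.finrank_range_of_inj hT, Module.finrank_eq_card_basis (bE b), Fintype.card_fin]
  have h3 : LinearMap.range T = LinearMap.range (TT_to b) := Submodule.eq_of_le_of_finrank_le hle (by rw [h1, h2])
  have h4 : TT_to b x ∈ LinearMap.range T := by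
    rw [h3]
    exact ⟨x, rfl⟩
  obtain ⟨v, hv⟩ := h4
  exact ⟨v, hv⟩

/-- `Ad` maps onto the identity component of `Aut(L)`. -/
theorem exists_rp [T2Space G] [ConnectedSpace G] (hc : Subgroup.center G = ⊥) {θ : GroupLieAlgebra 𝓘(ℝ, E) G ≃ₗ⁅ℝ⁆ GroupLieAlgebra 𝓘(ℝ, E) G}
    {b : Module.Basis (Fin N) ℝ (GroupLieAlgebra 𝓘(ℝ, E) G)} (h : CartanBasis θ b) {k : GL (Fin N) ℝ} (hk : k ∈ autC b) :
    ∃ g : G, rp b g = k := by
  have h1 := component_le h hk
  have h2 : Subgroup.closure (Set.range fun x : GroupLieAlgebra 𝓘(ℝ, E) G => ex (LinearMap.toMatrix b b (LieAlgebra.ad ℝ (GroupLieAlgebra 𝓘(ℝ, E) G) x))) ≤ (rp b).range := by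
    rw [Subgroup.closure_le]
    rintro _ ⟨x, rfl⟩
    obtain ⟨v, hv⟩ := exists_dAd hc h x
    refine ⟨og G v 1, Units.ext ?_⟩
    rw [rp_og, one_smul, hv]
    rfl
  exact h2 h1

end Pool.Agent.Helper66.LG
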